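import Mathlib
import Pool.Agent.Helper475.Miranda

/-!
A form of the theorem of Poincare and Miranda in the square: two continuous functions, the first of
which is nonpositive on two adjacent sides and nonnegative on the two other sides, while the second
one has opposite signs at the two corners in which these pairs of sides meet, have a common zero.
-/

set_option autoImplicit false

namespace Pool.Agent.N94.SJ

open Set

/-- The map from the square to the square which sends the left side to the corner `(0,0)`, the right
side to the corner `(1,1)`, and the bottom and the top to the two paths between the corners. -/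
noncomputable def mm (x y : ℝ) : ℝ × ℝ :=
  ((1 - y) * min 1 (2 * x) + y * max 0 (2 * x - 1),
   (1 - y) * max 0 (2 * x - 1) + y * min 1 (2 * x))

theorem mm_mem {x y : ℝ} (hx : x ∈ Icc (0 : ℝ) 1) (hy : y ∈ Icc (0 : ℝ) 1) :
    (mm x y).1 ∈ Icc (0 : ℝ) 1 ∧ (mm x y).2 ∈ Icc (0 : ℝ) 1 := by
  obtain ⟨hx0, hx1⟩ := hx
  obtain ⟨hy0, hy1⟩ := hy
  have h1 : 0 ≤ min 1 (2 * x) := le_min (by norm_num) (by linarith)
  have h2 : min 1 (2 * x) ≤ 1 := min_le_left _ _
  have h3 : 0 ≤ max 0 (2 * x - 1) := le_max_left _ _
  have h4 : max 0 (2 * x - 1) ≤ 1 := max_le (by norm_num) (by linarith)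
  simp only [mm, mem_Icc]
  refine ⟨⟨?_, ?_⟩, ?_, ?_⟩ <;> nlinarith

theorem cz (h φ : ℝ × ℝ → ℝ) (hh : Continuous h) (hφ : Continuous φ)
    (a1 : ∀ t ∈ Icc (0 : ℝ) 1, h (0, t) ≤ 0) (a2 : ∀ t ∈ Icc (0 : ℝ) 1, h (t, 1) ≤ 0)
    (b1 : ∀ t ∈ Icc (0 : ℝ) 1, 0 ≤ h (t, 0)) (b2 : ∀ t ∈ Icc (0 : ℝ) 1, 0 ≤ h (1, t))
    (c1 : φ (0, 0) ≤ 0) (c2 : 0 ≤ φ (1, 1)) :
    ∃ s ∈ Icc (0 : ℝ) 1, ∃ t ∈ Icc (0 : ℝ) 1, h (s, t) = 0 ∧ φ (s, t) = 0 := by
  have hm : Continuous (fun z : Fin 2 → ℝ => mm (z 0) (z 1)) := by
    unfold mm
    fun_prop
  obtain ⟨z, hz, hF⟩ := Pool.Agent.Helper475.Miranda.poincare_miranda 2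
    (fun z => ![φ (mm (z 0) (z 1)), - h (mm (z 0) (z 1))])
    (by
      apply Continuous.continuousOn
      refine continuous_pi (fun i => ?_)
      fin_cases i
      · exact hφ.comp hm
      · exact (hh.comp hm).neg)
    (by
      intro z hz i hi
      fin_cases i
      · have hi' : z 0 = 0 := hi
        have : mm (z 0) (z 1) = (0, 0) := by
          rw [hi']
          simp [mm]
        simpa [this] using c1
      · have hi' : z 1 = 0 := hi
        have hx := hz 0
        show - h (mm (z 0) (z 1)) ≤ 0
        rw [hi']
        rcases le_total (z 0) (1 / 2) with h1 | h1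
        · have : mm (z 0) 0 = (2 * z 0, 0) := by
            simp only [mm, sub_zero, one_mul, zero_mul, add_zero]
            rw [min_eq_right (by linarith), max_eq_left (by linarith)]
          rw [this]
          have := b1 (2 * z 0) ⟨by linarith, by linarith⟩
          linarith
        · have : mm (z 0) 0 = (1, 2 * z 0 - 1) := by
            simp only [mm, sub_zero, one_mul, zero_mul, add_zero]
            rw [min_eq_left (by linarith), max_eq_right (by linarith)]
          rw [this]
          have := b2 (2 * z 0 - 1) ⟨by linarith, by linarith⟩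
          linarith)
    (by
      intro z hz i hi
      fin_cases i
      · have hi' : z 0 = 1 := hi
        have : mm (z 0) (z 1) = (1, 1) := by
          rw [hi']
          have e1 : min 1 (2 * (1 : ℝ)) = 1 := min_eq_left (by norm_num)
          have e2 : max 0 (2 * (1 : ℝ) - 1) = 1 := by
            rw [max_eq_right] <;> norm_num
          simp only [mm, e1, e2]
          ext <;> simp
        simpa [this] using c2
      · have hi' : z 1 = 1 := hi
        have hx := hz 0
        show 0 ≤ - h (mm (z 0) (z 1))
        rw [hi']
        rcases le_total (z 0) (1 / 2) with h1 | h1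
        · have : mm (z 0) 1 = (0, 2 * z 0) := by
            simp only [mm, sub_self, one_mul, zero_mul, zero_add]
            rw [min_eq_right (by linarith), max_eq_left (by linarith)]
          rw [this]
          have := a1 (2 * z 0) ⟨by linarith, by linarith⟩
          linarith
        · have : mm (z 0) 1 = (2 * z 0 - 1, 1) := by
            simp only [mm, sub_self, one_mul, zero_mul, zero_add]
            rw [min_eq_left (by linarith), max_eq_right (by linarith)]
          rw [this]
          have := a2 (2 * z 0 - 1) ⟨by linarith, by linarith⟩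
          linarith)
  have hmem := mm_mem (hz 0) (hz 1)
  refine ⟨_, hmem.1, _, hmem.2, ?_, ?_⟩
  · have := congrFun hF 1
    simp only [Matrix.cons_val_one, Matrix.cons_val_fin_one, Pi.zero_apply, neg_eq_zero] at this
    exact this
  · have := congrFun hF 0
    simp only [Matrix.cons_val_zero, Pi.zero_apply] at this
    exact this

end Pool.Agent.N94.SJ
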