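import Mathlib
import Pool.Agent.N94.SJ.CZ

/-!
A function `c` on the unit interval, and a function `G` of two variables: if the set where `|c|` is
at most `δ` splits into a part `P` at the beginning and a part `Q` at the end, `G` is positive on
`P × Q` and negative on the diagonal where `|c| ≥ δ`, then there are two points with the same value
of `c`, of absolute value at least `δ`, at which `G` vanishes.
-/

set_option autoImplicit false

namespace Pool.Agent.N94.SJ

open Set Topology

theorem excursion (c : ℝ → ℝ) (hc : Continuous c) (G : ℝ × ℝ → ℝ) (hG : Continuous G) (δ : ℝ)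
    (hδ : 0 < δ) (P Q : Set ℝ) (hP : IsClosed P) (hQ : IsClosed Q) (hPQ : Disjoint P Q)
    (hP01 : P ⊆ Icc 0 1) (h0 : (0 : ℝ) ∈ P) (h1 : (1 : ℝ) ∈ Q)
    (hPs : ∀ a ∈ P, |c a| ≤ δ) (hQs : ∀ a ∈ Q, |c a| ≤ δ)
    (hcov : ∀ a ∈ Icc (0 : ℝ) 1, |c a| ≤ δ → a ∈ P ∪ Q)
    (hpos : ∀ a ∈ P, ∀ b ∈ Q, 0 ≤ G (a, b))
    (hneg : ∀ a ∈ Icc (0 : ℝ) 1, δ ≤ |c a| → G (a, a) ≤ 0) :
    ∃ a ∈ Icc (0 : ℝ) 1, ∃ b ∈ Icc (0 : ℝ) 1, c a = c b ∧ δ ≤ |c a| ∧ G (a, b) = 0 := by
  classical
  have hPc : IsCompact P := isCompact_Icc.of_isClosed_subset hP hP01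
  obtain ⟨i, hiP, himax⟩ := hPc.exists_isMaxOn ⟨0, h0⟩ continuous_id.continuousOn
  have hi01 := hP01 hiP
  have hQc : IsCompact (Q ∩ Icc i 1) := isCompact_Icc.of_isClosed_subset
    (hQ.inter isClosed_Icc) inter_subset_right
  obtain ⟨j, hjQ, hjmin⟩ := hQc.exists_isMinOn ⟨1, h1, hi01.2, le_refl _⟩ continuous_id.continuousOn
  have hij : i < j := by
    rcases lt_or_eq_of_le hjQ.2.1 with h | h
    · exact h
    · exfalso
      rw [← h] at hjQ
      exact Set.disjoint_left.1 hPQ hiP hjQ.1
  have hj01 : j ∈ Icc (0 : ℝ) 1 := ⟨hi01.1.trans hij.le, hjQ.2.2⟩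
  have hopen : ∀ x ∈ Ioo i j, δ < |c x| := by
    intro x hx
    by_contra hcon
    push Not at hcon
    have hx01 : x ∈ Icc (0 : ℝ) 1 := ⟨hi01.1.trans hx.1.le, hx.2.le.trans hj01.2⟩
    rcases hcov x hx01 hcon with h | h
    · have := himax h
      simp only [id, mem_setOf_eq] at this
      exact absurd hx.1 (not_lt.2 this)
    · have := hjmin ⟨h, hx.1.le, hx01.2⟩
      simp only [id, mem_setOf_eq] at this
      exact absurd hx.2 (not_lt.2 this)
  have hclosed : ∀ x ∈ Icc i j, δ ≤ |c x| := by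
    have h2 : closure (Ioo i j) ⊆ {x | δ ≤ |c x|} := by
      apply closure_minimal
      · intro x hx
        exact (hopen x hx).le
      · exact isClosed_le continuous_const hc.abs
    rw [closure_Ioo hij.ne] at h2
    exact h2
  have hi : |c i| = δ := le_antisymm (hPs i hiP) (hclosed i ⟨le_refl _, hij.le⟩)
  have hj : |c j| = δ := le_antisymm (hQs j hjQ.1) (hclosed j ⟨hij.le, le_refl _⟩)
  obtain ⟨m, hm, hmmax⟩ := isCompact_Icc.exists_isMaxOn (f := fun x => |c x|) (s := Icc i j)
    ⟨i, le_refl _, hij.le⟩ hc.abs.continuousOn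
  have hmm : ∀ x ∈ Icc i j, |c x| ≤ |c m| := fun x hx => hmmax hx
  have ea : ∀ x ∈ Icc (0 : ℝ) 1, i + (m - i) * x ∈ Icc i j := by
    intro x hx
    have h3 : 0 ≤ m - i := by linarith [hm.1]
    constructor
    · nlinarith [hx.1]
    · nlinarith [hx.2, hm.2]
  have eb : ∀ x ∈ Icc (0 : ℝ) 1, j - (j - m) * x ∈ Icc i j := by
    intro x hx
    have h3 : 0 ≤ j - m := by linarith [hm.2]
    constructor
    · nlinarith [hx.2, hm.1]
    · nlinarith [hx.1]
  obtain ⟨s, hs, t, ht, e1, e2⟩ := cz
    (fun p => |c (i + (m - i) * p.1)| - |c (j - (j - m) * p.2)|)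
    (fun p => - G (i + (m - i) * p.1, j - (j - m) * p.2))
    (by fun_prop) (by fun_prop)
    (fun t ht => by
      have := hclosed _ (eb t ht)
      simp only [mul_zero, add_zero, hi]
      linarith)
    (fun t ht => by
      have := hmm _ (ea t ht)
      have e : j - (j - m) * 1 = m := by ring
      simp only [e]
      linarith)
    (fun t ht => by
      have := hclosed _ (ea t ht)
      simp only [mul_zero, sub_zero, hj]
      linarith)
    (fun t ht => by
      have := hmm _ (eb t ht)
      have e : i + (m - i) * 1 = m := by ring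
      simp only [e]
      linarith)
    (by
      have := hpos i hiP j hjQ.1
      simp only [mul_zero, add_zero, sub_zero]
      linarith)
    (by
      have e : i + (m - i) * 1 = m := by ring
      have e' : j - (j - m) * 1 = m := by ring
      have := hneg m ⟨hi01.1.trans hm.1, hm.2.trans hj01.2⟩ (hclosed m hm)
      simp only [e, e']
      linarith)
  have ha := ea s hs
  have hb := eb t ht
  set a := i + (m - i) * s with hadef
  set b := j - (j - m) * t with hbdef
  have hab : |c a| = |c b| := by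
    have : |c a| - |c b| = 0 := e1
    linarith
  have hsub : uIcc a b ⊆ Icc i j := by
    intro x hx
    rw [mem_uIcc] at hx
    rcases hx with hx | hx
    · exact ⟨ha.1.trans hx.1, hx.2.trans hb.2⟩
    · exact ⟨hb.1.trans hx.1, hx.2.trans ha.2⟩
  refine ⟨a, ⟨hi01.1.trans ha.1, ha.2.trans hj01.2⟩, b, ⟨hi01.1.trans hb.1, hb.2.trans hj01.2⟩,
    ?_, hclosed a ha, ?_⟩
  · rcases abs_eq_abs.1 hab with h | h
    · exact h
    · exfalso
      have hmem : (0 : ℝ) ∈ uIcc (c a) (c b) := by
        rw [mem_uIcc]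
        rcases le_total 0 (c b) with h5 | h5
        · left; constructor <;> linarith
        · right; constructor <;> linarith
      obtain ⟨x, hx, hx0⟩ := intermediate_value_uIcc hc.continuousOn hmem
      have := hclosed x (hsub hx)
      rw [hx0, abs_zero] at this
      linarith
  · have : - G (a, b) = 0 := e2
    linarith

end Pool.Agent.N94.SJ
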