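import Mathlib
import Pool.Agent.N94.SJ.CZ

/-!
Two functions on the unit interval which start at their common minimum and end at their common
maximum can be climbed simultaneously up to an arbitrarily small error.
-/

set_option autoImplicit false

namespace Pool.Agent.N94.SJ

open Set Topology

/-- Projection of the line to the unit interval. -/
noncomputable def cl (s : ℝ) : ℝ := max 0 (min 1 s)

theorem cl_cont : Continuous cl := by unfold cl; fun_prop

theorem cl_mem (s : ℝ) : cl s ∈ Icc (0 : ℝ) 1 :=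
  ⟨le_max_left _ _, max_le (by norm_num) (min_le_left _ _)⟩

theorem cl_of_mem {s : ℝ} (hs : s ∈ Icc (0 : ℝ) 1) : cl s = s := by
  unfold cl
  rw [min_eq_right hs.2, max_eq_right hs.1]

theorem near_path (A B : ℝ → ℝ) (hA : Continuous A) (hB : Continuous B) (m0 m1 : ℝ)
    (A0 : A 0 = m0) (A1 : A 1 = m1) (B0 : B 0 = m0) (B1 : B 1 = m1)
    (hA' : ∀ s ∈ Icc (0 : ℝ) 1, m0 ≤ A s ∧ A s ≤ m1)
    (hB' : ∀ s ∈ Icc (0 : ℝ) 1, m0 ≤ B s ∧ B s ≤ m1) (η : ℝ) (hη : 0 < η) :
    ∃ κ : ℝ → ℝ × ℝ, Continuous κ ∧ κ 0 = (0, 0) ∧ κ 1 = (1, 1) ∧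
      (∀ x, (κ x).1 ∈ Icc (0 : ℝ) 1 ∧ (κ x).2 ∈ Icc (0 : ℝ) 1) ∧
      ∀ x, |A (κ x).1 - B (κ x).2| < η := by
  classical
  let U : Set (ℝ × ℝ) := {p | |A (cl p.1) - B (cl p.2)| < η}
  have hc := cl_cont
  have hU : IsOpen U := by
    apply isOpen_lt _ continuous_const
    fun_prop
  let O : Set (ℝ × ℝ) := connectedComponentIn U (0, 0)
  have hO : IsOpen O := hU.connectedComponentIn
  have c0 : cl 0 = 0 := cl_of_mem ⟨le_refl _, zero_le_one⟩
  have c1 : cl 1 = 1 := cl_of_mem ⟨zero_le_one, le_refl _⟩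
  have h00 : ((0 : ℝ), (0 : ℝ)) ∈ U := by
    show |A (cl 0) - B (cl 0)| < η
    rw [c0, A0, B0]; simpa using hη
  have h00O : ((0 : ℝ), (0 : ℝ)) ∈ O := mem_connectedComponentIn h00
  have key : ((1 : ℝ), (1 : ℝ)) ∈ O := by
    by_contra hnot
    let Z : Set (ℝ × ℝ) := (Icc 0 1 ×ˢ Icc 0 1) ∩ {p | A p.1 = B p.2}
    have hZc : IsClosed Z := by
      apply IsClosed.inter (isClosed_Icc.prod isClosed_Icc)
      exact isClosed_eq (by fun_prop) (by fun_prop)
    have hZU : Z ⊆ U := by
      rintro p ⟨⟨hp1, hp2⟩, hp⟩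
      show |A (cl p.1) - B (cl p.2)| < η
      rw [cl_of_mem hp1, cl_of_mem hp2]
      have : A p.1 = B p.2 := hp
      rw [this]; simpa using hη
    have hO' : IsOpen (U \ O) := by
      rw [isOpen_iff_mem_nhds]
      rintro q ⟨hqU, hqO⟩
      have h1 : IsOpen (connectedComponentIn U q) := hU.connectedComponentIn
      refine Filter.mem_of_superset (h1.mem_nhds (mem_connectedComponentIn hqU)) ?_
      intro x hx
      refine ⟨connectedComponentIn_subset _ _ hx, fun hxO => hqO ?_⟩
      have e1 : connectedComponentIn U q = connectedComponentIn U x := connectedComponentIn_eq hx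
      have e2 : O = connectedComponentIn U x := connectedComponentIn_eq hxO
      rw [e2, ← e1]
      exact mem_connectedComponentIn hqU
    have hZ1 : IsClosed (Z ∩ O) := by
      have : Z ∩ O = Z ∩ (U \ O)ᶜ := by
        ext p
        constructor
        · rintro ⟨h1, h2⟩
          exact ⟨h1, fun h3 => h3.2 h2⟩
        · rintro ⟨h1, h2⟩
          refine ⟨h1, ?_⟩
          by_contra h3
          exact h2 ⟨hZU h1, h3⟩
      rw [this]
      exact hZc.inter hO'.isClosed_compl
    have hZ2 : IsClosed (Z \ O) := hZc.inter hO.isClosed_compl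
    have hdis : Disjoint (Z ∩ O) (Z \ O) := by
      rw [Set.disjoint_left]
      rintro p ⟨_, h1⟩ ⟨_, h2⟩
      exact h2 h1
    obtain ⟨φ, hφ0, hφ1, hφ⟩ := exists_continuous_zero_one_of_isClosed hZ1 hZ2 hdis
    obtain ⟨s, hs, t, ht, h1, h2⟩ := cz (fun p => A p.1 - B p.2) (fun p => 2 * φ p - 1)
      (by fun_prop) (by fun_prop)
      (fun t ht => by simpa [A0] using (hB' t ht).1)
      (fun t ht => by simpa [B1] using (hA' t ht).2)
      (fun t ht => by simpa [B0] using (hA' t ht).1)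
      (fun t ht => by simpa [A1] using (hB' t ht).2)
      (by
        have : ((0 : ℝ), (0 : ℝ)) ∈ Z ∩ O :=
          ⟨⟨⟨⟨le_refl _, zero_le_one⟩, ⟨le_refl _, zero_le_one⟩⟩, by
            show A 0 = B 0
            rw [A0, B0]⟩, h00O⟩
        have h3 := hφ0 this
        simp only [Pi.zero_apply] at h3
        rw [h3]; norm_num)
      (by
        have : ((1 : ℝ), (1 : ℝ)) ∈ Z \ O :=
          ⟨⟨⟨⟨zero_le_one, le_refl _⟩, ⟨zero_le_one, le_refl _⟩⟩, by
            show A 1 = B 1
            rw [A1, B1]⟩, hnot⟩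
        have h3 := hφ1 this
        simp only [Pi.one_apply] at h3
        rw [h3]; norm_num)
    have hst : (s, t) ∈ Z := ⟨⟨hs, ht⟩, by
      show A s = B t
      linarith⟩
    by_cases hmem : (s, t) ∈ O
    · have h3 := hφ0 ⟨hst, hmem⟩
      simp only [Pi.zero_apply] at h3
      rw [h3] at h2; norm_num at h2
    · have h3 := hφ1 (show (s, t) ∈ Z \ O from ⟨hst, hmem⟩)
      simp only [Pi.one_apply] at h3
      rw [h3] at h2; norm_num at h2
  have hOc : IsConnected O := ⟨⟨_, h00O⟩, isPreconnected_connectedComponentIn⟩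
  have hOp : IsPathConnected O := (IsOpen.isConnected_iff_isPathConnected hO).1 hOc
  obtain ⟨γ, hγ⟩ := hOp.joinedIn _ h00O _ key
  have hmem : ∀ x : ℝ, γ.extend x ∈ U := by
    intro x
    have : γ.extend x ∈ O := by
      rw [Path.extend]
      exact hγ _
    exact connectedComponentIn_subset _ _ this
  refine ⟨fun x => (cl (γ.extend x).1, cl (γ.extend x).2), ?_, ?_, ?_, ?_, ?_⟩
  · have := γ.continuous_extend
    fun_prop
  · simp [c0]
  · simp [c1]
  · intro x
    exact ⟨cl_mem _, cl_mem _⟩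
  · intro x
    exact hmem x

end Pool.Agent.N94.SJ
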