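import Mathlib
import Pool.Agent.N94.SJ.Path
import Pool.Agent.N94.SJ.Exc

/-!
Two arcs in the plane from the lowest to the highest level of a linear functional `ℓ` which meet only
in their end points: for every continuous function `Φ (c, v)`, nonpositive for `v = 0`, and
nonnegative near `(0, T)`, `T` the difference of the end points, there are two horizontal chords of the
same signed length `c` between the two arcs, with the displacement `v`, such that `Φ (c, v) = 0`, and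
`|c| ≥ δ` with a number `δ > 0` which does not depend on `Φ`.
-/

set_option autoImplicit false

namespace Pool.Agent.N94.SJ

open Set Topology

theorem two_arcs (f g : ℝ → ℂ) (hf : Continuous f) (hg : Continuous g) (l m : ℂ →L[ℝ] ℝ)
    (hlm : ∀ z, l z = 0 → m z = 0 → z = 0) (h0 : f 0 = g 0) (h1 : f 1 = g 1)
    (hne : ∀ s ∈ Icc (0 : ℝ) 1, ∀ t ∈ Icc (0 : ℝ) 1, f s = g t →
      (s = 0 ∧ t = 0) ∨ (s = 1 ∧ t = 1))
    (hfl : ∀ s ∈ Icc (0 : ℝ) 1, l (f 0) ≤ l (f s) ∧ l (f s) ≤ l (f 1))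
    (hgl : ∀ s ∈ Icc (0 : ℝ) 1, l (g 0) ≤ l (g s) ∧ l (g s) ≤ l (g 1))
    (ε0 : ℝ) (hε0 : 0 < ε0) :
    ∃ δ : ℝ, 0 < δ ∧ ∀ Φ : ℝ × ℂ → ℝ, Continuous Φ → (∀ c, δ ≤ |c| → Φ (c, 0) ≤ 0) →
      (∀ c v, |c| < ε0 → ‖v - (f 1 - f 0)‖ < ε0 → 0 ≤ Φ (c, v)) →
    ∃ s ∈ Icc (0 : ℝ) 1, ∃ t ∈ Icc (0 : ℝ) 1, ∃ s' ∈ Icc (0 : ℝ) 1, ∃ t' ∈ Icc (0 : ℝ) 1,
      l (g t - f s) = 0 ∧ l (g t' - f s') = 0 ∧ m (g t - f s) = m (g t' - f s') ∧
      δ ≤ |m (g t - f s)| ∧ Φ (m (g t - f s), f s' - f s) = 0 := by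
  classical
  have hl := l.continuous
  have hmc := m.continuous
  -- the size of the corners
  obtain ⟨ρ, hρ0, hρ4, hρ⟩ : ∃ ρ : ℝ, 0 < ρ ∧ ρ ≤ 1 / 4 ∧ ∀ s t s' : ℝ, |s| ≤ ρ → |t| ≤ ρ →
      |s' - 1| ≤ ρ → |m (g t - f s)| < ε0 ∧ ‖f s' - f s - (f 1 - f 0)‖ < ε0 := by
    have hat : ∀ᶠ p in 𝓝 ((0, 0, 1) : ℝ × ℝ × ℝ),
        |m (g p.2.1 - f p.1)| < ε0 ∧ ‖f p.2.2 - f p.1 - (f 1 - f 0)‖ < ε0 := by
      apply Filter.Eventually.and
      · have hcont : Continuous (fun p : ℝ × ℝ × ℝ => |m (g p.2.1 - f p.1)|) := by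
          fun_prop
        apply hcont.continuousAt.eventually_lt_const
        simp only [← h0, sub_self, map_zero, abs_zero]
        exact hε0
      · have hcont : Continuous (fun p : ℝ × ℝ × ℝ => ‖f p.2.2 - f p.1 - (f 1 - f 0)‖) := by
          fun_prop
        apply hcont.continuousAt.eventually_lt_const
        simp only [sub_self, norm_zero]
        exact hε0
    rw [Metric.eventually_nhds_iff] at hat
    obtain ⟨ε, hε, hat⟩ := hat
    refine ⟨min (ε / 2) (1 / 4), by positivity, min_le_right _ _, ?_⟩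
    intro s t s' hs ht hs'
    have e1 : min (ε / 2) (1 / 4) < ε := lt_of_le_of_lt (min_le_left _ _) (by linarith)
    apply @hat (s, t, s')
    rw [Prod.dist_eq, Prod.dist_eq]
    simp only [Real.dist_eq, sub_zero]
    exact max_lt (lt_of_le_of_lt hs e1) (max_lt (lt_of_le_of_lt ht e1) (lt_of_le_of_lt hs' e1))
  -- away from the corners
  let K : Set (ℝ × ℝ) := (Icc 0 1 ×ˢ Icc 0 1) ∩
    ({p | ρ ≤ max p.1 p.2} ∩ {p | min p.1 p.2 ≤ 1 - ρ})
  have hKc : IsCompact K := (isCompact_Icc.prod isCompact_Icc).inter_right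
    ((isClosed_le continuous_const (by fun_prop)).inter (isClosed_le (by fun_prop) continuous_const))
  have hKn : K.Nonempty := ⟨(1 / 2, 1 / 2), by
    refine ⟨⟨⟨?_, ?_⟩, ⟨?_, ?_⟩⟩, ?_, ?_⟩ <;> simp <;> norm_num <;> linarith⟩
  let D : ℝ × ℝ → ℝ := fun p => |l (f p.1) - l (g p.2)| + |m (g p.2 - f p.1)|
  have hD : Continuous D := by
    show Continuous fun p : ℝ × ℝ => |l (f p.1) - l (g p.2)| + |m (g p.2 - f p.1)|
    fun_prop
  obtain ⟨p0, hp0, hmin⟩ := hKc.exists_isMinOn hKn hD.continuousOn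
  have hμ : 0 < D p0 := by
    have hnn : 0 ≤ D p0 := by positivity
    rcases hnn.lt_or_eq with h | h
    · exact h
    · exfalso
      have e1 : |l (f p0.1) - l (g p0.2)| = 0 ∧ |m (g p0.2 - f p0.1)| = 0 := by
        have a1 := abs_nonneg (l (f p0.1) - l (g p0.2))
        have a2 := abs_nonneg (m (g p0.2 - f p0.1))
        have a3 : 0 = |l (f p0.1) - l (g p0.2)| + |m (g p0.2 - f p0.1)| := h
        constructor <;> linarith
      have e2 : g p0.2 - f p0.1 = 0 := by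
        apply hlm
        · rw [map_sub]
          have := abs_eq_zero.1 e1.1
          linarith
        · exact abs_eq_zero.1 e1.2
      have e3 : f p0.1 = g p0.2 := (sub_eq_zero.1 e2).symm
      obtain ⟨⟨q1, q2⟩, q3, q4⟩ := hp0
      have q3' : ρ ≤ max p0.1 p0.2 := q3
      have q4' : min p0.1 p0.2 ≤ 1 - ρ := q4
      rcases hne _ q1 _ q2 e3 with h | h
      · rw [h.1, h.2, max_self] at q3'
        linarith
      · rw [h.1, h.2, min_self] at q4'
        linarith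
  set μ := D p0 with hμdef
  let δ := μ / 3
  have hδ : 0 < δ := by positivity
  refine ⟨δ, hδ, fun Φ hΦ hneg hpos => ?_⟩
  -- approximate solutions
  have approx : ∀ η : ℝ, 0 < η → η ≤ μ / 3 → ∃ s ∈ Icc (0 : ℝ) 1, ∃ t ∈ Icc (0 : ℝ) 1,
      ∃ s' ∈ Icc (0 : ℝ) 1, ∃ t' ∈ Icc (0 : ℝ) 1, |l (f s) - l (g t)| < η ∧
      |l (f s') - l (g t')| < η ∧ m (g t - f s) = m (g t' - f s') ∧ δ ≤ |m (g t - f s)| ∧
      Φ (m (g t - f s), f s' - f s) = 0 := by
    intro η hη hη3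
    obtain ⟨κ, hκc, hκ0, hκ1, hκm, hκ⟩ := near_path (fun s => l (f s)) (fun t => l (g t))
      (by fun_prop) (by fun_prop) (l (f 0)) (l (f 1)) rfl rfl (by rw [h0]) (by rw [h1]) hfl
      (by rw [h0, h1]; exact hgl) η hη
    let c : ℝ → ℝ := fun x => m (g (κ x).2 - f (κ x).1)
    have hc : Continuous c := by
      show Continuous fun x => m (g (κ x).2 - f (κ x).1)
      fun_prop
    let P : Set ℝ := Icc 0 1 ∩ ({x | |c x| ≤ δ} ∩ ({x | (κ x).1 ≤ ρ} ∩ {x | (κ x).2 ≤ ρ}))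
    let Q : Set ℝ := Icc 0 1 ∩ ({x | |c x| ≤ δ} ∩ ({x | 1 - ρ ≤ (κ x).1} ∩ {x | 1 - ρ ≤ (κ x).2}))
    have hc0 : c 0 = 0 := by
      show m (g (κ 0).2 - f (κ 0).1) = 0
      rw [hκ0]; simp [h0]
    have hc1 : c 1 = 0 := by
      show m (g (κ 1).2 - f (κ 1).1) = 0
      rw [hκ1]; simp [h1]
    obtain ⟨a, ha, b, hb, e1, e2, e3⟩ := excursion c hc
      (fun p => Φ (c p.1, f (κ p.2).1 - f (κ p.1).1)) (by fun_prop) δ hδ P Q
      (isClosed_Icc.inter ((isClosed_le hc.abs continuous_const).inter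
        ((isClosed_le (by fun_prop) continuous_const).inter
          (isClosed_le (by fun_prop) continuous_const))))
      (isClosed_Icc.inter ((isClosed_le hc.abs continuous_const).inter
        ((isClosed_le continuous_const (by fun_prop)).inter
          (isClosed_le continuous_const (by fun_prop)))))
      (by
        rw [Set.disjoint_left]
        rintro x ⟨_, _, (q1 : (κ x).1 ≤ ρ), _⟩ ⟨_, _, (q2 : 1 - ρ ≤ (κ x).1), _⟩
        linarith)
      inter_subset_left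
      ⟨⟨le_refl _, zero_le_one⟩, by
        show |c 0| ≤ δ
        rw [hc0, abs_zero]; exact hδ.le, by
        show (κ 0).1 ≤ ρ
        rw [hκ0]; exact hρ0.le, by
        show (κ 0).2 ≤ ρ
        rw [hκ0]; exact hρ0.le⟩
      ⟨⟨zero_le_one, le_refl _⟩, by
        show |c 1| ≤ δ
        rw [hc1, abs_zero]; exact hδ.le, by
        show 1 - ρ ≤ (κ 1).1
        rw [hκ1]; show 1 - ρ ≤ 1; linarith, by
        show 1 - ρ ≤ (κ 1).2
        rw [hκ1]; show 1 - ρ ≤ 1; linarith⟩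
      (fun x hx => hx.2.1) (fun x hx => hx.2.1)
      (by
        intro x hx hxc
        have hDx : D (κ x) < μ := by
          show |l (f (κ x).1) - l (g (κ x).2)| + |m (g (κ x).2 - f (κ x).1)| < μ
          have q1 := hκ x
          have q2 : |m (g (κ x).2 - f (κ x).1)| ≤ μ / 3 := hxc
          linarith
        have hnK : κ x ∉ K := fun h => by
          have : μ ≤ D (κ x) := hmin h
          linarith
        have hS := hκm x
        by_cases q : ρ ≤ max (κ x).1 (κ x).2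
        · by_cases q' : min (κ x).1 (κ x).2 ≤ 1 - ρ
          · exact absurd ⟨⟨hS.1, hS.2⟩, q, q'⟩ hnK
          · right
            rw [not_le, lt_min_iff] at q'
            exact ⟨hx, hxc, q'.1.le, q'.2.le⟩
        · left
          rw [not_le, max_lt_iff] at q
          exact ⟨hx, hxc, q.1.le, q.2.le⟩)
      (by
        rintro x ⟨hx, _, (q1 : (κ x).1 ≤ ρ), (q2 : (κ x).2 ≤ ρ)⟩ y
          ⟨hy, _, (q3 : 1 - ρ ≤ (κ y).1), _⟩
        have r1 := (hκm x).1.1
        have r2 := (hκm x).2.1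
        have r3 := (hκm y).1.2
        have r4 := hρ (κ x).1 (κ x).2 (κ y).1 (by rw [abs_le]; constructor <;> linarith)
          (by rw [abs_le]; constructor <;> linarith)
          (by rw [abs_le]; constructor <;> linarith)
        exact hpos _ _ r4.1 r4.2)
      (by
        intro x hx hxc
        simp only [sub_self]
        exact hneg _ hxc)
    exact ⟨(κ a).1, (hκm a).1, (κ a).2, (hκm a).2, (κ b).1, (hκm b).1, (κ b).2, (hκm b).2,
      hκ a, hκ b, e1, e2, e3⟩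
  -- the limit
  let W : Set ((ℝ × ℝ) × (ℝ × ℝ)) := ((Icc 0 1 ×ˢ Icc 0 1) ×ˢ (Icc 0 1 ×ˢ Icc 0 1)) ∩
    ({p | m (g p.1.2 - f p.1.1) = m (g p.2.2 - f p.2.1)} ∩ ({p | δ ≤ |m (g p.1.2 - f p.1.1)|} ∩
      {p | Φ (m (g p.1.2 - f p.1.1), f p.2.1 - f p.1.1) = 0}))
  have hWc : IsCompact W := by
    apply ((isCompact_Icc.prod isCompact_Icc).prod (isCompact_Icc.prod isCompact_Icc)).inter_right
    refine (isClosed_eq (by fun_prop) (by fun_prop)).inter
      ((isClosed_le continuous_const (by fun_prop)).inter (isClosed_eq (by fun_prop) ?_))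
    exact continuous_const
  let E : (ℝ × ℝ) × (ℝ × ℝ) → ℝ := fun p =>
    |l (f p.1.1) - l (g p.1.2)| + |l (f p.2.1) - l (g p.2.2)|
  have hE : Continuous E := by
    show Continuous fun p : (ℝ × ℝ) × (ℝ × ℝ) =>
      |l (f p.1.1) - l (g p.1.2)| + |l (f p.2.1) - l (g p.2.2)|
    fun_prop
  have hWE : ∀ η : ℝ, 0 < η → η ≤ μ / 3 → ∃ p ∈ W, E p < 2 * η := by
    intro η hη hη3
    obtain ⟨s, hs, t, ht, s', hs', t', ht', q1, q2, q3, q4, q5⟩ := approx η hη hη3
    refine ⟨((s, t), (s', t')), ⟨⟨⟨hs, ht⟩, ⟨hs', ht'⟩⟩, q3, q4, q5⟩, ?_⟩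
    show |l (f s) - l (g t)| + |l (f s') - l (g t')| < 2 * η
    linarith
  obtain ⟨p1, hp1, _⟩ := hWE (μ / 3) (by positivity) (le_refl _)
  obtain ⟨p, hp, hpmin⟩ := hWc.exists_isMinOn ⟨p1, hp1⟩ hE.continuousOn
  have hE0 : E p ≤ 0 := by
    by_contra hcon
    push Not at hcon
    obtain ⟨q, hq, hq2⟩ := hWE (min (μ / 3) (E p / 2)) (lt_min (by positivity) (by positivity))
      (min_le_left _ _)
    have h5 : E p ≤ E q := hpmin hq
    have h6 : min (μ / 3) (E p / 2) ≤ E p / 2 := min_le_right _ _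
    linarith
  have e1 : |l (f p.1.1) - l (g p.1.2)| = 0 ∧ |l (f p.2.1) - l (g p.2.2)| = 0 := by
    have a1 := abs_nonneg (l (f p.1.1) - l (g p.1.2))
    have a2 := abs_nonneg (l (f p.2.1) - l (g p.2.2))
    have a3 : |l (f p.1.1) - l (g p.1.2)| + |l (f p.2.1) - l (g p.2.2)| ≤ 0 := hE0
    constructor <;> linarith
  obtain ⟨⟨⟨r1, r2⟩, ⟨r3, r4⟩⟩, r5, (r6 : δ ≤ |m (g p.1.2 - f p.1.1)|), r7⟩ := hp
  refine ⟨p.1.1, r1, p.1.2, r2, p.2.1, r3, p.2.2, r4, ?_, ?_, r5, r6, r7⟩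
  · rw [map_sub]
    have := abs_eq_zero.1 e1.1
    linarith
  · rw [map_sub]
    have := abs_eq_zero.1 e1.2
    linarith

end Pool.Agent.N94.SJ
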