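import Mathlib

/-!
The crossing lemma: a family of complex numbers whose square roots change their sign.
-/

set_option autoImplicit false

namespace Pool.Agent.N94.SJ

open Set Topology Filter

theorem nz_sign (φ : ℝ → ℝ) (hφ : Continuous φ) (h : ∀ s, φ s ≠ 0) (a b : ℝ) :
    0 < φ a * φ b := by
  by_contra hcon
  push Not at hcon
  have h0 : (0 : ℝ) ∈ uIcc (φ a) (φ b) := by
    rw [mem_uIcc]
    rcases lt_or_gt_of_ne (h a) with h1 | h1
    · left
      refine ⟨h1.le, ?_⟩
      by_contra h2
      push Not at h2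
      have := mul_pos_of_neg_of_neg h1 h2
      linarith
    · right
      refine ⟨?_, h1.le⟩
      by_contra h2
      push Not at h2
      have := mul_pos h1 h2
      linarith
  obtain ⟨t, _, ht⟩ := intermediate_value_uIcc hφ.continuousOn h0
  exact h t ht

/-- A continuous function `H` on the plane without zeros whose real part is positive on the lines
`τ = N`, `τ = -N` and on the line `a = 1`, and which is a square `G τ ^ 2` for `a = 0`: then the real
parts of `G N` and `G (-N)` have the same sign. -/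
theorem crossing (H : ℝ × ℝ → ℂ) (hH : Continuous H) (hne : ∀ p, H p ≠ 0) (N : ℝ)
    (hp : ∀ a, 0 < (H (a, N)).re) (hm : ∀ a, 0 < (H (a, -N)).re)
    (h1 : ∀ τ, 0 < (H (1, τ)).re) (G : ℝ → ℂ) (hG : Continuous G)
    (h0 : ∀ τ, H (0, τ) = G τ ^ 2) : 0 < (G N).re * (G (-N)).re := by
  have hcs : ContractibleSpace (univ : Set (ℝ × ℝ)) :=
    convex_univ.contractibleSpace ⟨0, mem_univ _⟩
  have hsc : IsSimplyConnected (univ : Set (ℝ × ℝ)) :=
    (inferInstance : SimplyConnectedSpace (univ : Set (ℝ × ℝ)))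
  obtain ⟨g, hg, hgF⟩ := Complex.exists_continuousOn_eqOn_exp_comp hsc isOpen_univ
    hH.continuousOn (by rintro ⟨p, _, hp⟩; exact hne p hp)
  have hg' : Continuous g := continuousOn_univ.1 hg
  have hexp : ∀ p, Complex.exp (g p) = H p := fun p => hgF (mem_univ p)
  have hre : ∀ p, (H p).re = Real.exp (g p).re * Real.cos (g p).im := by
    intro p; rw [← hexp, Complex.exp_re]
  have hcos : ∀ p, 0 < (H p).re → Real.cos ((g p).im / 2) ≠ 0 := by
    intro p hp h2
    rw [hre] at hp
    have h3 : Real.cos (g p).im = 2 * Real.cos ((g p).im / 2) ^ 2 - 1 := by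
      rw [← Real.cos_two_mul]; congr 1; ring
    rw [h3, h2] at hp
    have := Real.exp_pos (g p).re
    nlinarith
  have s1 := nz_sign (fun a => Real.cos ((g (a, N)).im / 2)) (by fun_prop)
    (fun a => hcos _ (hp a)) 0 1
  have s2 := nz_sign (fun a => Real.cos ((g (a, -N)).im / 2)) (by fun_prop)
    (fun a => hcos _ (hm a)) 0 1
  have s3 := nz_sign (fun τ => Real.cos ((g (1, τ)).im / 2)) (by fun_prop)
    (fun τ => hcos _ (h1 τ)) N (-N)
  have hE : ∀ τ, Complex.exp (g (0, τ) / 2) ^ 2 = G τ ^ 2 := by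
    intro τ
    rw [← h0, ← hexp, ← Complex.exp_nat_mul]
    congr 1
    push_cast
    ring
  have hEne : ∀ τ, Complex.exp (g (0, τ) / 2) ≠ 0 := fun τ => Complex.exp_ne_zero _
  have hs : ∀ τ, G τ / Complex.exp (g (0, τ) / 2) = 1 ∨ G τ / Complex.exp (g (0, τ) / 2) = -1 := by
    intro τ
    rcases sq_eq_sq_iff_eq_or_eq_neg.1 (hE τ).symm with h | h
    · left; rw [h, div_self (hEne τ)]
    · right; rw [h, neg_div, div_self (hEne τ)]
  have s4 := nz_sign (fun τ => (G τ / Complex.exp (g (0, τ) / 2)).re) (by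
      have : Continuous fun τ => G τ / Complex.exp (g (0, τ) / 2) :=
        hG.div (by fun_prop) hEne
      exact Complex.continuous_re.comp this)
    (fun τ => by rcases hs τ with h | h <;> rw [h] <;> simp) N (-N)
  have hreE : ∀ τ, (Complex.exp (g (0, τ) / 2)).re =
      Real.exp ((g (0, τ)).re / 2) * Real.cos ((g (0, τ)).im / 2) := by
    intro τ
    rw [Complex.exp_re]
    congr 2
    · rw [show (2 : ℂ) = ((2 : ℝ) : ℂ) by norm_num, Complex.div_ofReal_re]
    · rw [show (2 : ℂ) = ((2 : ℝ) : ℂ) by norm_num, Complex.div_ofReal_im]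
  have s5 : 0 < (Complex.exp (g (0, N) / 2)).re * (Complex.exp (g (0, -N) / 2)).re := by
    rw [hreE, hreE]
    have e1 := Real.exp_pos ((g (0, N)).re / 2)
    have e2 := Real.exp_pos ((g (0, -N)).re / 2)
    have e3 : 0 < Real.cos ((g (0, N)).im / 2) * Real.cos ((g (0, -N)).im / 2) := by
      have h3 : 0 < (Real.cos ((g (0, N)).im / 2) * Real.cos ((g (0, -N)).im / 2)) *
          (Real.cos ((g (1, N)).im / 2) * Real.cos ((g (1, -N)).im / 2)) ^ 2 := by
        have := mul_pos (mul_pos s1 s2) s3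
        calc 0 < _ := this
          _ = _ := by ring
      exact (pos_iff_pos_of_mul_pos h3).2 (by positivity)
    calc 0 < Real.exp ((g (0, N)).re / 2) * Real.exp ((g (0, -N)).re / 2) *
          (Real.cos ((g (0, N)).im / 2) * Real.cos ((g (0, -N)).im / 2)) :=
            mul_pos (mul_pos e1 e2) e3
      _ = _ := by ring
  have hGe : ∀ τ, (G τ).re = (G τ / Complex.exp (g (0, τ) / 2)).re *
      (Complex.exp (g (0, τ) / 2)).re := by
    intro τ
    have h2 : G τ = G τ / Complex.exp (g (0, τ) / 2) * Complex.exp (g (0, τ) / 2) :=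
      (div_mul_cancel₀ _ (hEne τ)).symm
    conv_lhs => rw [h2]
    rcases hs τ with h | h <;> rw [h] <;> simp
  rw [hGe N, hGe (-N)]
  calc 0 < ((G N / Complex.exp (g (0, N) / 2)).re * (G (-N) / Complex.exp (g (0, -N) / 2)).re) *
        ((Complex.exp (g (0, N) / 2)).re * (Complex.exp (g (0, -N) / 2)).re) := mul_pos s4 s5
    _ = _ := by ring

end Pool.Agent.N94.SJ
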