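import Mathlib
import Pool.Agent.N94.SJ.Arcs

/-!
Inscribed parallelograms of arbitrary Jordan curves with a side of a given direction.
-/

set_option autoImplicit false

namespace Pool.Agent.N94.SJ

open Set Topology Real

/-- Let `x ≠ y` be points of the circle at which `l ∘ γ` is minimal and maximal, for a linear
functional `l`. For every `ε0 > 0` there is `δ > 0` such that for every continuous function
`Φ (c, v)` with `Φ (c, 0) ≤ 0` for `|c| ≥ δ` and `Φ ≥ 0` at distance less than `ε0` from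
`(0, γ y - γ x)` there is an inscribed parallelogram `γ x0, γ x1, γ x2, γ x3` with the side
`γ x1 - γ x0 = γ x2 - γ x3` in the kernel of `l`, with coordinate `c`, `|c| ≥ δ`, and the other side
`v = γ x3 - γ x0`, with `Φ (c, v) = 0`. -/
theorem curve_unif (γ : Circle → ℂ) (hγ : Continuous γ) (hinj : Function.Injective γ)
    (l m : ℂ →L[ℝ] ℝ) (hlm : ∀ z, l z = 0 → m z = 0 → z = 0) (x y : Circle) (hxy : x ≠ y)
    (hx : ∀ z, l (γ x) ≤ l (γ z)) (hy : ∀ z, l (γ z) ≤ l (γ y)) (ε0 : ℝ) (hε0 : 0 < ε0) :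
    ∃ δ : ℝ, 0 < δ ∧ ∀ Φ : ℝ × ℂ → ℝ, Continuous Φ → (∀ c, δ ≤ |c| → Φ (c, 0) ≤ 0) →
      (∀ c v, |c| < ε0 → ‖v - (γ y - γ x)‖ < ε0 → 0 ≤ Φ (c, v)) →
    ∃ x0 x1 x2 x3 : Circle, l (γ x1 - γ x0) = 0 ∧ δ ≤ |m (γ x1 - γ x0)| ∧
      γ x1 - γ x0 = γ x2 - γ x3 ∧ Φ (m (γ x1 - γ x0), γ x3 - γ x0) = 0 := by
  -- angles
  obtain ⟨a, b, ha, hb, hab, hab2⟩ : ∃ a b : ℝ, Circle.exp a = x ∧ Circle.exp b = y ∧ a < b ∧
      b < a + 2 * π := by
    have hpx := Complex.arg_mem_Ioc (x : ℂ)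
    have hpy := Complex.arg_mem_Ioc (y : ℂ)
    have ex := Circle.exp_arg x
    have ey := Circle.exp_arg y
    rcases lt_trichotomy (Complex.arg (x : ℂ)) (Complex.arg (y : ℂ)) with h | h | h
    · exact ⟨_, _, ex, ey, h, by linarith [hpx.1, hpy.2]⟩
    · exact absurd (by rw [← ex, ← ey, h]) hxy
    · refine ⟨Complex.arg (x : ℂ), Complex.arg (y : ℂ) + 2 * π, ex, ?_, ?_, ?_⟩
      · rw [Circle.exp_eq_exp.2 ⟨1, by push_cast; ring⟩, ey]
      · linarith [hpx.2, hpy.1]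
      · linarith
  set d := b - a with hd
  have hd0 : 0 < d := by linarith
  have hd2 : 0 < 2 * π - d := by linarith
  let f : ℝ → ℂ := fun s => γ (Circle.exp (a + s * d))
  let g : ℝ → ℂ := fun t => γ (Circle.exp (a - t * (2 * π - d)))
  have hce : Continuous (fun t : ℝ => Circle.exp t) := Circle.exp.continuous
  have hf : Continuous f := by
    show Continuous fun s : ℝ => γ (Circle.exp (a + s * d))
    exact hγ.comp (hce.comp (by fun_prop))
  have hg : Continuous g := by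
    show Continuous fun s : ℝ => γ (Circle.exp (a - s * (2 * π - d)))
    exact hγ.comp (hce.comp (by fun_prop))
  have f0 : f 0 = γ x := by
    show γ (Circle.exp (a + 0 * d)) = γ x
    rw [zero_mul, add_zero, ha]
  have g0 : g 0 = γ x := by
    show γ (Circle.exp (a - 0 * (2 * π - d))) = γ x
    rw [zero_mul, sub_zero, ha]
  have f1 : f 1 = γ y := by
    show γ (Circle.exp (a + 1 * d)) = γ y
    rw [one_mul, hd, add_sub_cancel, hb]
  have g1 : g 1 = γ y := by
    show γ (Circle.exp (a - 1 * (2 * π - d))) = γ y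
    rw [(Circle.exp_eq_exp (x := a - 1 * (2 * π - d)) (y := b)).2
      ⟨-1, by rw [hd]; push_cast; ring⟩, hb]
  have hne : ∀ s ∈ Icc (0 : ℝ) 1, ∀ t ∈ Icc (0 : ℝ) 1, f s = g t →
      (s = 0 ∧ t = 0) ∨ (s = 1 ∧ t = 1) := by
    intro s hs t ht h
    have h1 := hinj h
    rw [Circle.exp_eq_exp] at h1
    obtain ⟨k, hk⟩ := h1
    have h2 : s * d + t * (2 * π - d) = k * (2 * π) := by linarith
    have hp := Real.pi_pos
    have q1 : 0 ≤ s * d := mul_nonneg hs.1 hd0.le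
    have q2 : 0 ≤ t * (2 * π - d) := mul_nonneg ht.1 hd2.le
    have q3 : 0 ≤ (1 - s) * d := mul_nonneg (by linarith [hs.2]) hd0.le
    have q4 : 0 ≤ (1 - t) * (2 * π - d) := mul_nonneg (by linarith [ht.2]) hd2.le
    have k0 : (0 : ℝ) ≤ k := by
      by_contra hcon
      push Not at hcon
      nlinarith
    have k1 : (k : ℝ) ≤ 1 := by
      by_contra hcon
      push Not at hcon
      nlinarith
    have k0' : (0 : ℤ) ≤ k := by exact_mod_cast k0
    have k1' : k ≤ 1 := by exact_mod_cast k1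
    have hk01 : k = 0 ∨ k = 1 := by omega
    rcases hk01 with rfl | rfl
    · left
      have e : s * d + t * (2 * π - d) = 0 := by rw [h2]; simp
      have e1 : s * d = 0 := by linarith
      have e2 : t * (2 * π - d) = 0 := by linarith
      exact ⟨(mul_eq_zero.1 e1).resolve_right hd0.ne', (mul_eq_zero.1 e2).resolve_right hd2.ne'⟩
    · right
      have e : (1 - s) * d + (1 - t) * (2 * π - d) = 0 := by
        have : ((1 : ℤ) : ℝ) * (2 * π) = 2 * π := by simp
        rw [this] at h2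
        linarith
      have e1 : (1 - s) * d = 0 := by linarith
      have e2 : (1 - t) * (2 * π - d) = 0 := by linarith
      have r1 := (mul_eq_zero.1 e1).resolve_right hd0.ne'
      have r2 := (mul_eq_zero.1 e2).resolve_right hd2.ne'
      constructor <;> linarith
  obtain ⟨δ, hδ, H⟩ := two_arcs f g hf hg l m hlm
    (by rw [f0, g0]) (by rw [f1, g1]) hne
    (fun s _ => by rw [f0, f1]; exact ⟨hx _, hy _⟩)
    (fun s _ => by rw [g0, g1]; exact ⟨hx _, hy _⟩) ε0 hε0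
  rw [f0, f1] at H
  refine ⟨δ, hδ, fun Φ hΦ hneg hpos => ?_⟩
  obtain ⟨s, hs, t, ht, s', hs', t', ht', e1, e2, e3, e4, e5⟩ := H Φ hΦ hneg hpos
  refine ⟨Circle.exp (a + s * d), Circle.exp (a - t * (2 * π - d)),
    Circle.exp (a - t' * (2 * π - d)), Circle.exp (a + s' * d), e1, e4, ?_, e5⟩
  have : (g t - f s) - (g t' - f s') = 0 := by
    apply hlm
    · rw [map_sub, e1, e2, sub_zero]
    · rw [map_sub, e3, sub_self]
  exact sub_eq_zero.1 this

/-- The version for one function: `Φ (c, 0) < 0` for `c ≠ 0` and `Φ (0, γ y - γ x) > 0`. -/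
theorem curve (γ : Circle → ℂ) (hγ : Continuous γ) (hinj : Function.Injective γ)
    (l m : ℂ →L[ℝ] ℝ) (hlm : ∀ z, l z = 0 → m z = 0 → z = 0) (x y : Circle)
    (hx : ∀ z, l (γ x) ≤ l (γ z)) (hy : ∀ z, l (γ z) ≤ l (γ y))
    (Φ : ℝ × ℂ → ℝ) (hΦ : Continuous Φ) (hneg : ∀ c, c ≠ 0 → Φ (c, 0) < 0)
    (hpos : 0 < Φ (0, γ y - γ x)) :
    ∃ x0 x1 x2 x3 : Circle, l (γ x1 - γ x0) = 0 ∧ m (γ x1 - γ x0) ≠ 0 ∧
      γ x1 - γ x0 = γ x2 - γ x3 ∧ Φ (m (γ x1 - γ x0), γ x3 - γ x0) = 0 := by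
  -- the points are different
  have hxy : x ≠ y := by
    rintro rfl
    rw [sub_self] at hpos
    have h1 : ∀ᶠ c in 𝓝 (0 : ℝ), 0 < Φ (c, 0) :=
      (hΦ.comp (by fun_prop : Continuous fun c : ℝ => (c, (0 : ℂ)))).continuousAt.eventually_const_lt
        hpos
    rw [Metric.eventually_nhds_iff] at h1
    obtain ⟨ε, hε, h1⟩ := h1
    have h2 := @h1 (ε / 2) (by rw [Real.dist_eq, sub_zero, abs_of_pos (by positivity)]; linarith)
    have h3 := hneg (ε / 2) (by positivity)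
    linarith
  have h1 : ∀ᶠ p in 𝓝 ((0 : ℝ), γ y - γ x), 0 < Φ p := hΦ.continuousAt.eventually_const_lt hpos
  rw [Metric.eventually_nhds_iff] at h1
  obtain ⟨ε, hε, h1⟩ := h1
  obtain ⟨δ, hδ, H⟩ := curve_unif γ hγ hinj l m hlm x y hxy hx hy ε hε
  obtain ⟨x0, x1, x2, x3, e1, e2, e3, e4⟩ := H Φ hΦ
    (fun c hc => (hneg c (by rintro rfl; rw [abs_zero] at hc; linarith)).le)
    (fun c v hc hv => by
      apply (h1 _).le
      rw [Prod.dist_eq, Real.dist_eq, sub_zero, dist_eq_norm]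
      exact max_lt hc hv)
  exact ⟨x0, x1, x2, x3, e1, by intro h; rw [h, abs_zero] at e2; linarith, e3, e4⟩

end Pool.Agent.N94.SJ
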