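import Mathlib
import Pool.Agent.N94.SJ.Curve

/-!
Coordinates with respect to two independent directions, and the linear algebra of rectangles in the
copies of the plane stretched along the first of them.
-/

set_option autoImplicit false

namespace Pool.Agent.N94.SJ

open Set Complex

/-- The determinant of two complex numbers. -/
noncomputable def dd (u v : ℂ) : ℝ := u.re * v.im - u.im * v.re

/-- The first coordinate with respect to `u`, `v`. -/
noncomputable def cx (u v : ℂ) : ℂ →L[ℝ] ℝ :=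
  (dd u v)⁻¹ • (v.im • Complex.reCLM - v.re • Complex.imCLM)

/-- The second coordinate with respect to `u`, `v`. -/
noncomputable def cy (u v : ℂ) : ℂ →L[ℝ] ℝ :=
  (dd u v)⁻¹ • (u.re • Complex.imCLM - u.im • Complex.reCLM)

theorem cx_apply (u v z : ℂ) : cx u v z = (dd u v)⁻¹ * (v.im * z.re - v.re * z.im) := by
  simp [cx]

theorem cy_apply (u v z : ℂ) : cy u v z = (dd u v)⁻¹ * (u.re * z.im - u.im * z.re) := by
  simp [cy]

theorem decomp {u v : ℂ} (h : dd u v ≠ 0) (z : ℂ) :
    z = ((cx u v z : ℝ) : ℂ) * u + ((cy u v z : ℝ) : ℂ) * v := by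
  have h' : u.re * v.im - u.im * v.re ≠ 0 := h
  apply Complex.ext
  · simp only [cx_apply, cy_apply, add_re, mul_re, ofReal_re, ofReal_im, zero_mul, sub_zero, dd]
    field_simp
    ring
  · simp only [cx_apply, cy_apply, add_im, mul_im, ofReal_re, ofReal_im, zero_mul, add_zero, dd]
    field_simp
    ring

theorem cx_smul (u v : ℂ) (h : dd u v ≠ 0) (a b : ℝ) : cx u v (a * u + b * v) = a := by
  have h' : u.re * v.im - u.im * v.re ≠ 0 := h
  rw [cx_apply]
  simp only [add_re, mul_re, ofReal_re, ofReal_im, zero_mul, sub_zero, add_im, mul_im, add_zero, dd]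
  field_simp
  ring

theorem cy_smul (u v : ℂ) (h : dd u v ≠ 0) (a b : ℝ) : cy u v (a * u + b * v) = b := by
  have h' : u.re * v.im - u.im * v.re ≠ 0 := h
  rw [cy_apply]
  simp only [add_re, mul_re, ofReal_re, ofReal_im, zero_mul, sub_zero, add_im, mul_im, add_zero, dd]
  field_simp
  ring

/-- The linear map with `u ↦ lam u`, `v ↦ v`. -/
noncomputable def st (u v : ℂ) (lam : ℝ) : ℂ →ₗ[ℝ] ℂ :=
  ((lam • (cx u v : ℂ →ₗ[ℝ] ℝ)).smulRight u) + ((cy u v : ℂ →ₗ[ℝ] ℝ).smulRight v)

theorem st_apply (u v : ℂ) (lam : ℝ) (z : ℂ) :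
    st u v lam z = ((lam * cx u v z : ℝ) : ℂ) * u + ((cy u v z : ℝ) : ℂ) * v := by
  simp [st]

theorem st_u {u v : ℂ} (h : dd u v ≠ 0) (lam : ℝ) : st u v lam u = lam • u := by
  have h1 := cx_smul u v h 1 0
  have h2 := cy_smul u v h 1 0
  simp only [ofReal_one, one_mul, ofReal_zero, zero_mul, add_zero] at h1 h2
  rw [st_apply, h1, h2]
  simp

theorem st_v {u v : ℂ} (h : dd u v ≠ 0) (lam : ℝ) : st u v lam v = v := by
  have h1 := cx_smul u v h 0 1
  have h2 := cy_smul u v h 0 1
  simp only [ofReal_one, one_mul, ofReal_zero, zero_mul, zero_add] at h1 h2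
  rw [st_apply, h1, h2]
  simp

/-- The vertices of a rectangle of aspect ratio `r` in the stretched copy: the conclusion of the main
theorems. -/
def Rect (γ : Circle → ℂ) (S : ℂ →ₗ[ℝ] ℂ) (r : ℝ) (e : ℂ) : Prop :=
  ∃ x0 x1 x2 x3 : Circle, ∃ b : ℂ, b ≠ 0 ∧ S (γ x1) = S (γ x0) + b ∧
    S (γ x2) = S (γ x0) + b + r * I * b ∧ S (γ x3) = S (γ x0) + r * I * b ∧
    ∃ c : ℝ, γ x1 - γ x0 = c * e

/-- The linear algebra of the main theorem: a parallelogram with the sides `w = c e`, `w'` such that
`x' y' + r ^ 2 x y = r α |x y' - x' y|` becomes a rectangle of aspect ratio `r` after a stretching. -/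
theorem rect_of (γ : Circle → ℂ) (u v : ℂ) (h : 0 < dd u v) (r : ℝ) (hr : 0 < r) (e : ℂ)
    (x0 x1 x2 x3 : Circle) (hpar : γ x1 - γ x0 = γ x2 - γ x3) (c : ℝ) (hw : γ x1 - γ x0 = c * e)
    (hxy : cx u v (γ x1 - γ x0) * cy u v (γ x1 - γ x0) ≠ 0)
    (hF : cx u v (γ x3 - γ x0) * cy u v (γ x3 - γ x0) +
      r ^ 2 * (cx u v (γ x1 - γ x0) * cy u v (γ x1 - γ x0)) -
      r * (-(u.re * v.re + u.im * v.im) / dd u v) *
        |cx u v (γ x1 - γ x0) * cy u v (γ x3 - γ x0) -
          cx u v (γ x3 - γ x0) * cy u v (γ x1 - γ x0)| = 0) :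
    ∃ lam : ℝ, 0 < lam ∧ Rect γ (st u v lam) r e := by
  have hd : dd u v ≠ 0 := h.ne'
  -- core statement for a positively oriented pair
  have core : ∀ x y x' y' : ℝ, x * y ≠ 0 → 0 < x * y' - x' * y →
      x' * y' + r ^ 2 * (x * y) - r * (-(u.re * v.re + u.im * v.im) / dd u v) *
        (x * y' - x' * y) = 0 →
      ∃ lam : ℝ, 0 < lam ∧
        ((lam * x' : ℝ) : ℂ) * u + (y' : ℂ) * v =
          r * I * (((lam * x : ℝ) : ℂ) * u + (y : ℂ) * v) := by
    intro x y x' y' hxy hdet hF
    set D := dd u v with hD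
    have hD' : D = u.re * v.im - u.im * v.re := rfl
    set a0 : ℝ := -(u.re * v.re + u.im * v.im) / D with ha0
    set c0 : ℝ := (u.re ^ 2 + u.im ^ 2) / D with hc0
    set b0 : ℝ := -(v.re ^ 2 + v.im ^ 2) / D with hb0
    have hbc : a0 ^ 2 + b0 * c0 = -1 := by
      rw [ha0, hb0, hc0]
      field_simp
      rw [hD']
      ring
    have hx : x ≠ 0 := left_ne_zero_of_mul hxy
    have hy : y ≠ 0 := right_ne_zero_of_mul hxy
    have hu0 : 0 < u.re ^ 2 + u.im ^ 2 := by
      rcases (by positivity : 0 ≤ u.re ^ 2 + u.im ^ 2).lt_or_eq with h1 | h1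
      · exact h1
      · exfalso
        have e1 : u.re = 0 := by nlinarith [sq_nonneg u.re, sq_nonneg u.im]
        have e2 : u.im = 0 := by nlinarith [sq_nonneg u.re, sq_nonneg u.im]
        rw [hD', e1, e2] at h
        simp at h
    have hc0pos : 0 < c0 := by positivity
    have hprod : (y' + r * a0 * y) * (x' - r * a0 * x) = r ^ 2 * (b0 * c0) * (x * y) := by
      have : b0 * c0 = -1 - a0 ^ 2 := by linarith
      rw [this]
      linear_combination hF
    have hb0c0 : b0 * c0 < 0 := by nlinarith [sq_nonneg a0]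
    set lam : ℝ := (y' + r * a0 * y) / (r * c0 * x) with hlam
    have hne : y' + r * a0 * y ≠ 0 := by
      intro h0
      rw [h0, zero_mul] at hprod
      have : r ^ 2 * (b0 * c0) * (x * y) ≠ 0 := by
        apply mul_ne_zero (mul_ne_zero (by positivity) hb0c0.ne) hxy
      exact this hprod.symm
    have hrc : r * c0 * x ≠ 0 := mul_ne_zero (mul_ne_zero hr.ne' hc0pos.ne') hx
    have e2 : y' = r * (c0 * (lam * x) - a0 * y) := by
      rw [hlam]
      field_simp
      ring
    have e1 : lam * x' = r * (a0 * (lam * x) + b0 * y) := by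
      have h1 : lam * (x' - r * a0 * x) = r * b0 * y := by
        rw [hlam, div_mul_eq_mul_div, hprod]
        field_simp
      linarith
    have hlampos : 0 < lam := by
      have h1 : lam * c0 * (x * y' - x' * y) = r * ((c0 * (lam * x) - a0 * y) ^ 2 + y ^ 2) := by
        have h2 : lam * c0 * (x * y' - x' * y) = c0 * (lam * x) * y' - c0 * (lam * x') * y := by ring
        rw [h2, e1, e2]
        have : b0 * c0 = -1 - a0 ^ 2 := by linarith
        linear_combination (-r * y ^ 2) * this
      have h2 : 0 < r * ((c0 * (lam * x) - a0 * y) ^ 2 + y ^ 2) := by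
        have : 0 < y ^ 2 := by positivity
        positivity
      rw [← h1] at h2
      have h3 : 0 < lam * (c0 * (x * y' - x' * y)) := by
        rw [← mul_assoc]; exact h2
      exact (pos_iff_pos_of_mul_pos h3).2 (by positivity)
    refine ⟨lam, hlampos, ?_⟩
    -- multiplication by `I` in the coordinates
    have iu : I * u = (a0 : ℂ) * u + (c0 : ℂ) * v := by
      apply Complex.ext
      · simp only [mul_re, I_re, zero_mul, I_im, one_mul, zero_sub, add_re, ofReal_re, ofReal_im,
          sub_zero, ha0, hc0]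
        field_simp
        rw [hD']
        ring
      · simp only [mul_im, I_re, zero_mul, I_im, one_mul, zero_add, add_im, ofReal_re, ofReal_im,
          add_zero, ha0, hc0]
        field_simp
        rw [hD']
        ring
    have iv : I * v = (b0 : ℂ) * u - (a0 : ℂ) * v := by
      apply Complex.ext
      · simp only [mul_re, I_re, zero_mul, I_im, one_mul, zero_sub, sub_re, ofReal_re, ofReal_im,
          sub_zero, ha0, hb0]
        field_simp
        rw [hD']
        ring
      · simp only [mul_im, I_re, zero_mul, I_im, one_mul, zero_add, sub_im, ofReal_re, ofReal_im,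
          add_zero, ha0, hb0]
        field_simp
        rw [hD']
        ring
    have e1' : ((lam * x' : ℝ) : ℂ) = r * (a0 * ((lam * x : ℝ) : ℂ) + b0 * y) := by
      rw [e1]; push_cast; ring
    have e2' : (y' : ℂ) = r * (c0 * ((lam * x : ℝ) : ℂ) - a0 * y) := by
      rw [e2]; push_cast; ring
    rw [e1', e2']
    linear_combination (-(r : ℂ) * ((lam * x : ℝ) : ℂ)) * iu + (-(r : ℂ) * (y : ℂ)) * iv
  set x := cx u v (γ x1 - γ x0) with hx
  set y := cy u v (γ x1 - γ x0) with hy
  set x' := cx u v (γ x3 - γ x0) with hx'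
  set y' := cy u v (γ x3 - γ x0) with hy'
  have hdet : x * y' - x' * y ≠ 0 := by
    intro h0
    rw [h0, abs_zero, mul_zero, sub_zero] at hF
    -- proportional vectors
    have hxn : x ≠ 0 := left_ne_zero_of_mul hxy
    have h1 : x ^ 2 * (x' * y' + r ^ 2 * (x * y)) = (x' ^ 2 + r ^ 2 * x ^ 2) * (x * y) := by
      have : x * y' = x' * y := by linarith
      linear_combination (x * x') * this
    rw [hF, mul_zero] at h1
    have h2 : 0 < x' ^ 2 + r ^ 2 * x ^ 2 := by positivity
    exact (mul_ne_zero h2.ne' hxy) h1.symm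
  have hS : ∀ (lam : ℝ) (z : ℂ), st u v lam z =
      ((lam * cx u v z : ℝ) : ℂ) * u + ((cy u v z : ℝ) : ℂ) * v := st_apply u v
  rcases lt_or_gt_of_ne hdet with hneg | hpos
  · -- negative orientation: use the base point `x3`
    rw [abs_of_neg hneg] at hF
    obtain ⟨lam, hlam, hl⟩ := core x y (-x') (-y') hxy (by linarith) (by linear_combination hF)
    refine ⟨lam, hlam, x3, x2, x1, x0, st u v lam (γ x1 - γ x0), ?_, ?_, ?_, ?_, ?_⟩
    · intro h0
      rw [hS] at h0
      have h1 := cx_smul u v hd (lam * cx u v (γ x1 - γ x0)) (cy u v (γ x1 - γ x0))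
      rw [h0, map_zero] at h1
      have : lam * x ≠ 0 := mul_ne_zero hlam.ne' (left_ne_zero_of_mul hxy)
      exact this h1.symm
    · rw [hpar, map_sub]; ring
    · have h2 : γ x1 = γ x3 + (γ x1 - γ x0) - (γ x3 - γ x0) := by ring
      conv_lhs => rw [h2]
      rw [map_sub, map_add, sub_eq_add_neg]
      congr 1
      rw [hS lam (γ x3 - γ x0), hS lam (γ x1 - γ x0), ← hl]
      push_cast
      ring
    · have h2 : γ x0 = γ x3 - (γ x3 - γ x0) := by ring
      conv_lhs => rw [h2]
      rw [map_sub, sub_eq_add_neg]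
      congr 1
      rw [hS lam (γ x3 - γ x0), hS lam (γ x1 - γ x0), ← hl]
      push_cast
      ring
    · exact ⟨c, by rw [← hpar, hw]⟩
  · rw [abs_of_pos hpos] at hF
    obtain ⟨lam, hlam, hl⟩ := core x y x' y' hxy hpos hF
    refine ⟨lam, hlam, x0, x1, x2, x3, st u v lam (γ x1 - γ x0), ?_, ?_, ?_, ?_, ?_⟩
    · intro h0
      rw [hS] at h0
      have h1 := cx_smul u v hd (lam * cx u v (γ x1 - γ x0)) (cy u v (γ x1 - γ x0))
      rw [h0, map_zero] at h1
      have : lam * x ≠ 0 := mul_ne_zero hlam.ne' (left_ne_zero_of_mul hxy)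
      exact this h1.symm
    · rw [map_sub]; ring
    · have h2 : γ x2 = γ x0 + (γ x1 - γ x0) + (γ x3 - γ x0) := by
        rw [hpar]; ring
      conv_lhs => rw [h2]
      rw [map_add, map_add, hS lam (γ x3 - γ x0), hS lam (γ x1 - γ x0)]
      rw [← hl]
    · have h2 : γ x3 = γ x0 + (γ x3 - γ x0) := by ring
      conv_lhs => rw [h2]
      rw [map_add, hS lam (γ x3 - γ x0), hS lam (γ x1 - γ x0)]
      rw [← hl]
    · exact ⟨c, hw⟩

end Pool.Agent.N94.SJ
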