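import Mathlib
import Pool.Agent.N94.SJ.Lin

/-!
Every Jordan curve has inscribed rectangles of every aspect ratio after a suitable stretching along
two given directions, and after a suitable shear along a given direction.
-/

set_option autoImplicit false

namespace Pool.Agent.N94.SJ

open Set Complex Topology

/-- A Jordan curve is not contained in a line. -/
theorem noline (γ : Circle → ℂ) (hγ : Continuous γ) (hinj : Function.Injective γ)
    (l m : ℂ →L[ℝ] ℝ) (hlm : ∀ z, l z = 0 → m z = 0 → z = 0) :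
    ∃ z z' : Circle, l (γ z) < l (γ z') := by
  by_contra hcon
  push Not at hcon
  have hconst : ∀ z z' : Circle, l (γ z) = l (γ z') := fun z z' => le_antisymm (hcon _ _) (hcon _ _)
  let φ : ℝ → ℝ := fun t => m (γ (Circle.exp t)) - m (γ (Circle.exp (t + Real.pi)))
  have hce : Continuous (fun t : ℝ => Circle.exp t) := Circle.exp.continuous
  have hφ : Continuous φ := by
    show Continuous fun t => m (γ (Circle.exp t)) - m (γ (Circle.exp (t + Real.pi)))
    have h1 : Continuous fun t : ℝ => γ (Circle.exp t) := hγ.comp hce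
    have h2 : Continuous fun t : ℝ => γ (Circle.exp (t + Real.pi)) :=
      hγ.comp (hce.comp (by fun_prop))
    have := m.continuous
    fun_prop
  have h2 : φ Real.pi = - φ 0 := by
    have e : Circle.exp (Real.pi + Real.pi) = Circle.exp 0 :=
      (Circle.exp_eq_exp (x := Real.pi + Real.pi) (y := 0)).2 ⟨1, by push_cast; ring⟩
    show m (γ (Circle.exp Real.pi)) - m (γ (Circle.exp (Real.pi + Real.pi))) =
      -(m (γ (Circle.exp 0)) - m (γ (Circle.exp (0 + Real.pi))))
    rw [e, zero_add]; ring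
  have h0 : (0 : ℝ) ∈ uIcc (φ 0) (φ Real.pi) := by
    rw [h2, mem_uIcc]
    rcases le_total 0 (φ 0) with h | h
    · right; constructor <;> linarith
    · left; constructor <;> linarith
  obtain ⟨t, _, ht⟩ := intermediate_value_uIcc hφ.continuousOn h0
  have e1 : γ (Circle.exp t) - γ (Circle.exp (t + Real.pi)) = 0 := by
    apply hlm
    · rw [map_sub, hconst _ (Circle.exp (t + Real.pi)), sub_self]
    · rw [map_sub]; exact ht
  have e2 := hinj (sub_eq_zero.1 e1)
  rw [Circle.exp_eq_exp] at e2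
  obtain ⟨k, hk⟩ := e2
  have hp := Real.pi_pos
  have h3 : (1 + 2 * k : ℝ) * Real.pi = 0 := by linarith
  have h4 : (1 + 2 * k : ℝ) = 0 := (mul_eq_zero.1 h3).resolve_right hp.ne'
  have h5 : (1 + 2 * k : ℤ) = 0 := by exact_mod_cast h4
  omega

/-- The points of the curve where a linear functional is minimal and maximal. -/
theorem extremes (γ : Circle → ℂ) (hγ : Continuous γ) (l : ℂ →L[ℝ] ℝ) :
    ∃ x y : Circle, (∀ z, l (γ x) ≤ l (γ z)) ∧ ∀ z, l (γ z) ≤ l (γ y) := by
  have hc : Continuous fun z => l (γ z) := l.continuous.comp hγ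
  obtain ⟨x, _, hx⟩ := isCompact_univ.exists_isMinOn ⟨1, mem_univ _⟩ hc.continuousOn
  obtain ⟨y, _, hy⟩ := isCompact_univ.exists_isMaxOn ⟨1, mem_univ _⟩ hc.continuousOn
  exact ⟨x, y, fun z => hx (mem_univ z), fun z => hy (mem_univ z)⟩

/-- The curve lies in a parallelogram whose vertices lie on the curve and whose diagonals are
parallel to `u` and `v`. -/
def InRhomb (γ : Circle → ℂ) (u v : ℂ) : Prop :=
  ∃ p0 p1 p2 p3 : Circle, γ p0 + γ p2 = γ p1 + γ p3 ∧
    (∃ s : ℝ, s ≠ 0 ∧ γ p1 - γ p3 = s * u) ∧ (∃ s : ℝ, s ≠ 0 ∧ γ p2 - γ p0 = s * v) ∧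
    ∀ z : Circle, ∃ a ∈ Icc (0 : ℝ) 1, ∃ b ∈ Icc (0 : ℝ) 1,
      γ z = γ p0 + a * (γ p1 - γ p0) + b * (γ p3 - γ p0)

theorem sep {u v : ℂ} (h : dd u v ≠ 0) {z : ℂ} (h1 : cx u v z = 0) (h2 : cy u v z = 0) : z = 0 := by
  rw [decomp h z, h1, h2]; simp

theorem hyp_pos (γ : Circle → ℂ) (hγ : Continuous γ) (hinj : Function.Injective γ)
    (u v : ℂ) (h : 0 < dd u v) (hR : ¬ InRhomb γ u v) (r : ℝ) (hr : 0 < r) :
    ∃ k1 k2 : ℝ, k1 < k2 ∧ ∀ k ∈ Ioo k1 k2, k ≠ 0 ∧ ∃ lam : ℝ, 0 < lam ∧
      Rect γ (st u v lam) r (u + k * v) := by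
  classical
  have hd : dd u v ≠ 0 := h.ne'
  set X := cx u v with hX
  set Y := cy u v with hY
  obtain ⟨xl, xr, hxl, hxr⟩ := extremes γ hγ X
  obtain ⟨yb, yt, hyb, hyt⟩ := extremes γ hγ Y
  set W' := X (γ xr) - X (γ xl) with hW'
  set W := Y (γ yt) - Y (γ yb) with hW
  have hW'0 : 0 < W' := by
    obtain ⟨z, z', hz⟩ := noline γ hγ hinj X Y (fun z h1 h2 => sep hd h1 h2)
    have := hxl z; have := hxr z'
    linarith
  have hW0 : 0 < W := by
    obtain ⟨z, z', hz⟩ := noline γ hγ hinj Y X (fun z h1 h2 => sep hd h2 h1)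
    have := hyb z; have := hyt z'
    linarith
  have hXb : ∀ z z' : Circle, |X (γ z) - X (γ z')| ≤ W' := by
    intro z z'
    rw [abs_le]
    constructor
    · linarith [hxl z, hxr z']
    · linarith [hxl z', hxr z]
  have hYb : ∀ z z' : Circle, |Y (γ z) - Y (γ z')| ≤ W := by
    intro z z'
    rw [abs_le]
    constructor
    · linarith [hyb z, hyt z']
    · linarith [hyb z', hyt z]
  by_cases hD : ∃ p q : Circle, W * W' < W * |X (γ q) - X (γ p)| + W' * |Y (γ q) - Y (γ p)|
  · -- the main case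
    obtain ⟨p, q, hpq, hYpq⟩ : ∃ p q : Circle,
        W * W' < W * |X (γ q) - X (γ p)| + W' * |Y (γ q) - Y (γ p)| ∧ 0 ≤ Y (γ q) - Y (γ p) := by
      obtain ⟨p, q, hpq⟩ := hD
      rcases le_total 0 (Y (γ q) - Y (γ p)) with h1 | h1
      · exact ⟨p, q, hpq, h1⟩
      · refine ⟨q, p, ?_, by linarith⟩
        rw [abs_sub_comm (X (γ p)), abs_sub_comm (Y (γ p))]
        exact hpq
    rw [abs_of_nonneg hYpq] at hpq
    set A := |X (γ q) - X (γ p)| with hA
    set B := Y (γ q) - Y (γ p) with hB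
    have hAW : A ≤ W' := hXb q p
    have hBW : B ≤ W := (le_abs_self _).trans (hYb q p)
    have hA0 : 0 < A := by
      by_contra hcon
      push Not at hcon
      nlinarith
    have hB0 : 0 < B := by
      by_contra hcon
      push Not at hcon
      nlinarith
    obtain ⟨σ, hσ, hσA⟩ : ∃ σ : ℝ, σ * σ = 1 ∧ σ * (X (γ q) - X (γ p)) = A := by
      rcases le_total 0 (X (γ q) - X (γ p)) with h1 | h1
      · exact ⟨1, by norm_num, by rw [hA, abs_of_nonneg h1, one_mul]⟩
      · exact ⟨-1, by norm_num, by rw [hA, abs_of_nonpos h1]; ring⟩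
    have hσabs : |σ| = 1 := by
      have : |σ| * |σ| = 1 := by rw [← abs_mul, hσ, abs_one]
      nlinarith [abs_nonneg σ]
    have hσ0 : σ ≠ 0 := by
      rintro rfl
      simp at hσ
    set t0 := W / W' with ht0
    have hev : ∀ᶠ t in 𝓝 t0, 0 < t ∧ t * W' < t * A + B ∧ W < t * A + B := by
      have q1 : 0 < t0 := by positivity
      have q2 : t0 * W' < t0 * A + B := by
        rw [ht0]
        field_simp
        nlinarith
      have q3 : W < t0 * A + B := by
        rw [ht0]
        have : W / W' * A + B = (W * A + W' * B) / W' := by field_simp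
        rw [this, lt_div_iff₀ hW'0]
        exact hpq
      refine (lt_mem_nhds q1).and (Filter.Eventually.and ?_ ?_)
      · exact (isOpen_lt (by fun_prop : Continuous fun t : ℝ => t * W')
          (by fun_prop : Continuous fun t : ℝ => t * A + B)).mem_nhds q2
      · exact (isOpen_lt continuous_const
          (by fun_prop : Continuous fun t : ℝ => t * A + B)).mem_nhds q3
    rw [Metric.eventually_nhds_iff] at hev
    obtain ⟨ε, hε, hev⟩ := hev
    refine ⟨-σ * t0 - ε, -σ * t0 + ε, by linarith, ?_⟩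
    intro k hk
    set t := -σ * k with ht
    have hkt : k = -σ * t := by
      rw [ht]
      linear_combination (-k) * hσ
    have hdist : dist t t0 < ε := by
      rw [Real.dist_eq]
      have : t - t0 = -σ * (k + σ * t0) := by
        rw [ht]
        linear_combination (t0) * hσ
      rw [this, abs_mul, abs_neg, hσabs, one_mul, abs_lt]
      constructor <;> linarith [hk.1, hk.2]
    obtain ⟨ht0', ht1, ht2⟩ := hev hdist
    have hk0 : k ≠ 0 := by
      rw [hkt]
      exact mul_ne_zero (neg_ne_zero.2 hσ0) ht0'.ne'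
    refine ⟨hk0, ?_⟩
    -- the linear functional
    set l : ℂ →L[ℝ] ℝ := (σ * t) • X + Y with hl
    have hlz : ∀ z, l z = σ * t * X z + Y z := fun z => by simp [hl]
    have hlm : ∀ z, l z = 0 → X z = 0 → z = 0 := by
      intro z h1 h2
      rw [hlz, h2] at h1
      exact sep hd h2 (by linarith)
    obtain ⟨x, y, hx, hy⟩ := extremes γ hγ l
    have hlT : t * A + B ≤ l (γ y) - l (γ x) := by
      have h1 := hx p
      have h2 := hy q
      have h3 : l (γ q) - l (γ p) = t * A + B := by
        rw [hlz, hlz, ← hσA, hB]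
        ring
      linarith
    have hXT := hXb y x
    have hYT := hYb y x
    have hlT' : l (γ y) - l (γ x) = σ * t * (X (γ y) - X (γ x)) + (Y (γ y) - Y (γ x)) := by
      rw [hlz, hlz]; ring
    have hs1 : σ * (X (γ y) - X (γ x)) ≤ W' := by
      refine (le_abs_self _).trans ?_
      rw [abs_mul, hσabs, one_mul]
      exact hXT
    have hYpos : 0 < Y (γ y) - Y (γ x) := by
      have : σ * t * (X (γ y) - X (γ x)) ≤ t * W' := by
        have := mul_le_mul_of_nonneg_left hs1 ht0'.le
        linarith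
      linarith
    have hXpos : 0 < σ * (X (γ y) - X (γ x)) := by
      have h1 : Y (γ y) - Y (γ x) ≤ W := (le_abs_self _).trans hYT
      have h2 : 0 < t * (σ * (X (γ y) - X (γ x))) := by linarith
      exact (pos_iff_pos_of_mul_pos h2).1 ht0'
    -- the function
    let al : ℝ := -(u.re * v.re + u.im * v.im) / dd u v
    let Φ : ℝ × ℂ → ℝ := fun p => σ * (X p.2 * Y p.2 + r ^ 2 * (p.1 * (p.1 * k)) -
      r * al * |p.1 * Y p.2 - X p.2 * (p.1 * k)|)
    have hΦ : Continuous Φ := by
      have := X.continuous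
      have := Y.continuous
      show Continuous fun p : ℝ × ℂ => σ * (X p.2 * Y p.2 + r ^ 2 * (p.1 * (p.1 * k)) -
        r * al * |p.1 * Y p.2 - X p.2 * (p.1 * k)|)
      fun_prop
    obtain ⟨x0, x1, x2, x3, e1, e2, e3, e4⟩ := curve γ hγ hinj l X hlm x y hx hy Φ hΦ
      (by
        intro c hc
        show σ * (X 0 * Y 0 + r ^ 2 * (c * (c * k)) - r * al * |c * Y 0 - X 0 * (c * k)|) < 0
        simp only [map_zero, mul_zero, zero_mul, sub_self, abs_zero, sub_zero, zero_add]
        rw [hkt]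
        have : σ * (r ^ 2 * (c * (c * (-σ * t)))) = -(r ^ 2 * c ^ 2 * t) := by
          linear_combination (-(r ^ 2 * c ^ 2 * t)) * hσ
        rw [this]
        have : 0 < r ^ 2 * c ^ 2 * t := by positivity
        linarith)
      (by
        show 0 < σ * (X (γ y - γ x) * Y (γ y - γ x) + r ^ 2 * (0 * (0 * k)) -
          r * al * |0 * Y (γ y - γ x) - X (γ y - γ x) * (0 * k)|)
        simp only [zero_mul, mul_zero, add_zero, sub_self, abs_zero, sub_zero, map_sub]
        have := mul_pos hXpos hYpos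
        linarith)
    set c := X (γ x1 - γ x0) with hc
    have hYw : Y (γ x1 - γ x0) = c * k := by
      rw [hlz] at e1
      rw [hkt]
      linarith
    have hw : γ x1 - γ x0 = (c : ℂ) * (u + k * v) := by
      have := decomp hd (γ x1 - γ x0)
      rw [← hX, ← hY, ← hc, hYw] at this
      rw [this]
      push_cast
      ring
    apply rect_of γ u v h r hr (u + k * v) x0 x1 x2 x3 e3 c hw
    · rw [← hX, ← hY, ← hc, hYw]
      exact mul_ne_zero e2 (mul_ne_zero e2 hk0)
    · rw [← hX, ← hY, ← hc, hYw]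
      have e4' : σ * (X (γ x3 - γ x0) * Y (γ x3 - γ x0) + r ^ 2 * (c * (c * k)) -
        r * al * |c * Y (γ x3 - γ x0) - X (γ x3 - γ x0) * (c * k)|) = 0 := e4
      exact (mul_eq_zero.1 e4').resolve_left hσ0
  · -- the exceptional case
    exfalso
    push Not at hD
    apply hR
    have hXtb : X (γ yt) - X (γ yb) = 0 := by
      have h1 := hD yb yt
      rw [← hW, abs_of_pos hW0] at h1
      have h2 : W * |X (γ yt) - X (γ yb)| ≤ 0 := by linarith
      have h3 : |X (γ yt) - X (γ yb)| ≤ 0 := by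
        by_contra hcon
        push Not at hcon
        have := mul_pos hW0 hcon
        linarith
      exact abs_eq_zero.1 (le_antisymm h3 (abs_nonneg _))
    have hYrl : Y (γ xr) - Y (γ xl) = 0 := by
      have h1 := hD xl xr
      rw [← hW', abs_of_pos hW'0] at h1
      have h2 : W' * |Y (γ xr) - Y (γ xl)| ≤ 0 := by linarith
      have h3 : |Y (γ xr) - Y (γ xl)| ≤ 0 := by
        by_contra hcon
        push Not at hcon
        have := mul_pos hW'0 hcon
        linarith
      exact abs_eq_zero.1 (le_antisymm h3 (abs_nonneg _))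
    have i1 := hD yb xr
    have i2 := hD xl yt
    have i3 := hD xr yt
    have i4 := hD xl yb
    rw [abs_of_nonneg (by linarith [hxr yb]), abs_of_nonneg (by linarith [hyb xr])] at i1
    rw [abs_of_nonneg (by linarith [hxl yt]), abs_of_nonneg (by linarith [hyt xl])] at i2
    rw [abs_of_nonpos (by linarith [hxr yt]), abs_of_nonneg (by linarith [hyt xr])] at i3
    rw [abs_of_nonneg (by linarith [hxl yb]), abs_of_nonpos (by linarith [hyb xl])] at i4
    have s1 : W * (X (γ xr) - X (γ yb)) + W' * (Y (γ xr) - Y (γ yb)) +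
        (W * (X (γ yt) - X (γ xl)) + W' * (Y (γ yt) - Y (γ xl))) = 2 * (W * W') := by
      have e1 : X (γ yt) = X (γ yb) := by linarith
      have e2 : Y (γ xr) = Y (γ xl) := by linarith
      rw [e1, e2, hW, hW']
      ring
    have s2 : W * (-(X (γ yt) - X (γ xr))) + W' * (Y (γ yt) - Y (γ xr)) +
        (W * (X (γ yb) - X (γ xl)) + W' * (-(Y (γ yb) - Y (γ xl)))) = 2 * (W * W') := by
      have e1 : X (γ yt) = X (γ yb) := by linarith
      have e2 : Y (γ xr) = Y (γ xl) := by linarith
      rw [e1, e2, hW, hW']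
      ring
    have f1 : W * (X (γ xr) - X (γ yb)) + W' * (Y (γ xr) - Y (γ yb)) = W * W' := by linarith
    have f3 : W * (-(X (γ yt) - X (γ xr))) + W' * (Y (γ yt) - Y (γ xr)) = W * W' := by linarith
    have f2 : W * (X (γ yt) - X (γ xl)) + W' * (Y (γ yt) - Y (γ xl)) = W * W' := by linarith
    have g1 : 2 * (Y (γ xr) - Y (γ yb)) = W := by
      have e1 : X (γ yt) = X (γ yb) := by linarith
      rw [e1] at f3
      have : W' * (2 * (Y (γ xr) - Y (γ yb)) - W) = 0 := by
        rw [hW]
        linear_combination f1 - f3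
      have := (mul_eq_zero.1 this).resolve_left hW'0.ne'
      linarith
    have g2 : 2 * (X (γ xr) - X (γ yb)) = W' := by
      have : W * (2 * (X (γ xr) - X (γ yb)) - W') = 0 := by
        linear_combination 2 * f1 - W' * g1
      have := (mul_eq_zero.1 this).resolve_left hW0.ne'
      linarith
    refine ⟨yb, xr, yt, xl, ?_, ⟨W', hW'0.ne', ?_⟩, ⟨W, hW0.ne', ?_⟩, ?_⟩
    · rw [← sub_eq_zero]
      apply sep hd
      · rw [map_sub, map_add, map_add, ← hX]
        linarith
      · rw [map_sub, map_add, map_add, ← hY]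
        linarith
    · have := decomp hd (γ xr - γ xl)
      rw [map_sub, map_sub, ← hX, ← hY, hYrl] at this
      rw [this]; simp [hW']
    · have := decomp hd (γ yt - γ yb)
      rw [map_sub, map_sub, ← hX, ← hY, hXtb] at this
      rw [this]; simp [hW]
    · intro z
      set xi := X (γ z) - X (γ yb) with hxi
      set et := Y (γ z) - Y (γ yb) with het
      have j1 := hD yb z
      have j2 := hD z yt
      rw [← hxi, ← het, abs_of_nonneg (by linarith [hyb z] : 0 ≤ et)] at j1
      have e1 : X (γ yt) - X (γ z) = -xi := by rw [hxi]; linarith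
      have e2 : Y (γ yt) - Y (γ z) = W - et := by rw [het, hW]; ring
      have hWe : 0 ≤ W - et := by
        rw [← e2]; linarith [hyt z]
      rw [e1, e2, abs_neg, abs_of_nonneg hWe] at j2
      have j3 : W * |xi| ≤ W' * et := by linarith
      have k1 := le_abs_self xi
      have k2 := neg_abs_le xi
      have k3 : W * xi ≤ W * |xi| := mul_le_mul_of_nonneg_left k1 hW0.le
      have k4 : -(W * |xi|) ≤ W * xi := by
        have := mul_le_mul_of_nonneg_left k2 hW0.le
        linarith
      have hWW : 0 < W * W' := mul_pos hW0 hW'0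
      refine ⟨(W * xi + W' * et) / (W * W'), ⟨div_nonneg (by linarith) hWW.le, ?_⟩,
        (W' * et - W * xi) / (W * W'), ⟨div_nonneg (by linarith) hWW.le, ?_⟩, ?_⟩
      · rw [div_le_one hWW]; linarith
      · rw [div_le_one hWW]; linarith
      · rw [← sub_eq_zero]
        have hm : ∀ (F : ℂ →L[ℝ] ℝ) (a : ℝ) (z : ℂ), F ((a : ℂ) * z) = a * F z := by
          intro F a z
          rw [← Complex.real_smul, map_smul, smul_eq_mul]
        apply sep hd
        · rw [map_sub, map_add, map_add, hm, hm, map_sub, map_sub, ← hX]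
          have e3 : X (γ xr) - X (γ yb) = W' / 2 := by linarith
          have e4 : X (γ xl) - X (γ yb) = -(W' / 2) := by linarith
          rw [e3, e4]
          have : X (γ z) = X (γ yb) + xi := by rw [hxi]; ring
          rw [this]
          field_simp
          ring
        · rw [map_sub, map_add, map_add, hm, hm, map_sub, map_sub, ← hY]
          have e3 : Y (γ xr) - Y (γ yb) = W / 2 := by linarith
          have e4 : Y (γ xl) - Y (γ yb) = W / 2 := by linarith
          rw [e3, e4]
          have : Y (γ z) = Y (γ yb) + et := by rw [het]; ring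
          rw [this]
          field_simp
          ring

theorem hyp (γ : Circle → ℂ) (hγ : Continuous γ) (hinj : Function.Injective γ)
    (u v : ℂ) (h : dd u v ≠ 0) (hR : ¬ InRhomb γ u v) (r : ℝ) (hr : 0 < r) :
    ∃ k1 k2 : ℝ, k1 < k2 ∧ ∀ k ∈ Ioo k1 k2, k ≠ 0 ∧ ∃ lam : ℝ, 0 < lam ∧
      ∃ S : ℂ →ₗ[ℝ] ℂ, S u = lam • u ∧ S v = v ∧ Rect γ S r (u + k * v) := by
  rcases lt_or_gt_of_ne h with hneg | hpos
  · have hd : dd u (-v) = - dd u v := by
      simp only [dd, neg_im, neg_re]; ring
    have hR' : ¬ InRhomb γ u (-v) := by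
      rintro ⟨p0, p1, p2, p3, h1, ⟨s, hs, h2⟩, ⟨s', hs', h3⟩, h4⟩
      exact hR ⟨p0, p1, p2, p3, h1, ⟨s, hs, h2⟩, ⟨-s', neg_ne_zero.2 hs', by rw [h3]; push_cast; ring⟩, h4⟩
    obtain ⟨k1, k2, hk, H⟩ := hyp_pos γ hγ hinj u (-v) (by rw [hd]; linarith) hR' r hr
    refine ⟨-k2, -k1, by linarith, ?_⟩
    intro k hk'
    obtain ⟨h1, lam, h2, h3⟩ := H (-k) ⟨by linarith [hk'.2], by linarith [hk'.1]⟩
    have hd0 : dd u (-v) ≠ 0 := by rw [hd]; exact neg_ne_zero.2 h
    refine ⟨by simpa using h1, lam, h2, st u (-v) lam, st_u hd0 lam, ?_, ?_⟩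
    · have := st_v hd0 lam
      rw [map_neg] at this
      exact neg_injective this
    · have e : u + ((-k : ℝ) : ℂ) * (-v) = u + k * v := by push_cast; ring
      rw [e] at h3
      exact h3
  · obtain ⟨k1, k2, hk, H⟩ := hyp_pos γ hγ hinj u v hpos hR r hr
    refine ⟨k1, k2, hk, fun k hk' => ?_⟩
    obtain ⟨h1, lam, h2, h3⟩ := H k hk'
    exact ⟨h1, lam, h2, st u v lam, st_u h lam, st_v h lam, h3⟩

/-- Squares for perpendicular directions, without exception. -/
theorem square (γ : Circle → ℂ) (hγ : Continuous γ) (hinj : Function.Injective γ)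
    (u : ℂ) (hu : u ≠ 0) :
    ∃ lam : ℝ, 0 < lam ∧ ∃ S : ℂ →ₗ[ℝ] ℂ, S u = lam • u ∧ S (I * u) = I * u ∧
      ∃ e : ℂ, Rect γ S 1 e := by
  have hdd : dd u (I * u) = u.re ^ 2 + u.im ^ 2 := by
    simp only [dd, mul_im, I_re, zero_mul, I_im, one_mul, zero_add, mul_re, zero_sub]
    ring
  have hpos : 0 < dd u (I * u) := by
    rw [hdd]
    have : Complex.normSq u ≠ 0 := by simpa using hu
    have h2 := lt_of_le_of_ne (Complex.normSq_nonneg u) this.symm
    rw [Complex.normSq_apply] at h2
    nlinarith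
  by_cases hR : InRhomb γ u (I * u)
  · obtain ⟨p0, p1, p2, p3, h1, ⟨s, hs, h2⟩, ⟨s', hs', h3⟩, h4⟩ := hR
    have e1 : γ p1 - γ p0 = ((s / 2 : ℝ) : ℂ) * u + ((s' / 2 : ℝ) : ℂ) * (I * u) := by
      push_cast
      linear_combination (1 / 2 : ℂ) * h2 + (1 / 2 : ℂ) * h3 - (1 / 2 : ℂ) * h1
    have e3 : γ p3 - γ p0 = ((-(s / 2) : ℝ) : ℂ) * u + ((s' / 2 : ℝ) : ℂ) * (I * u) := by
      push_cast
      linear_combination -(1 / 2 : ℂ) * h2 + (1 / 2 : ℂ) * h3 - (1 / 2 : ℂ) * h1
    have hpar : γ p1 - γ p0 = γ p2 - γ p3 := by linear_combination -h1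
    obtain ⟨lam, hlam, hRect⟩ := rect_of γ u (I * u) hpos 1 one_pos (γ p1 - γ p0) p0 p1 p2 p3 hpar 1
      (by push_cast; ring)
      (by
        rw [e1, cx_smul _ _ hpos.ne', cy_smul _ _ hpos.ne']
        positivity)
      (by
        rw [e1, e3, cx_smul _ _ hpos.ne', cy_smul _ _ hpos.ne', cx_smul _ _ hpos.ne',
          cy_smul _ _ hpos.ne']
        have : u.re * (I * u).re + u.im * (I * u).im = 0 := by
          simp only [mul_re, I_re, zero_mul, I_im, one_mul, zero_sub, mul_im, zero_add]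
          ring
        rw [this]
        ring)
    exact ⟨lam, hlam, st u (I * u) lam, st_u hpos.ne' lam, st_v hpos.ne' lam, _, hRect⟩
  · obtain ⟨k1, k2, hk, H⟩ := hyp γ hγ hinj u (I * u) hpos.ne' hR 1 one_pos
    obtain ⟨_, lam, h2, S, h3, h4, h5⟩ := H ((k1 + k2) / 2) ⟨by linarith, by linarith⟩
    exact ⟨lam, h2, S, h3, h4, _, h5⟩

/-- Shears. -/
theorem shear (γ : Circle → ℂ) (hγ : Continuous γ) (hinj : Function.Injective γ)
    (u : ℂ) (hu : u ≠ 0) (r : ℝ) (hr : 0 < r) :
    ∃ τ : ℝ, ∃ S : ℂ →ₗ[ℝ] ℂ, S u = u ∧ S (I * u) = I * u + τ • u ∧ Rect γ S r u := by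
  have hdd : dd u (I * u) = u.re ^ 2 + u.im ^ 2 := by
    simp only [dd, mul_im, I_re, zero_mul, I_im, one_mul, zero_add, mul_re, zero_sub]
    ring
  have hpos : 0 < dd u (I * u) := by
    rw [hdd]
    have : Complex.normSq u ≠ 0 := by simpa using hu
    have h2 := lt_of_le_of_ne (Complex.normSq_nonneg u) this.symm
    rw [Complex.normSq_apply] at h2
    nlinarith
  have hd := hpos.ne'
  set X := cx u (I * u) with hX
  set Y := cy u (I * u) with hY
  obtain ⟨x, y, hx, hy⟩ := extremes γ hγ Y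
  have hT : 0 < Y (γ y) - Y (γ x) := by
    obtain ⟨z, z', hz⟩ := noline γ hγ hinj Y X (fun z h1 h2 => sep hd h2 h1)
    have := hx z; have := hy z'
    linarith
  obtain ⟨x0, x1, x2, x3, e1, e2, e3, e4⟩ := curve γ hγ hinj Y X
    (fun z h1 h2 => sep hd h2 h1) x y hx hy (fun p => |Y p.2| - r * |p.1|)
    (by
      have := Y.continuous
      fun_prop)
    (by
      intro c hc
      have : 0 < r * |c| := by positivity
      simp only [map_zero, abs_zero]
      linarith)
    (by
      simp only [map_sub, abs_zero, mul_zero, sub_zero]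
      exact abs_pos.2 hT.ne')
  set c := X (γ x1 - γ x0) with hc
  have hw : γ x1 - γ x0 = (c : ℂ) * u := by
    have := decomp hd (γ x1 - γ x0)
    rw [← hX, ← hY, ← hc, e1] at this
    rw [this]; simp
  set yy := Y (γ x3 - γ x0) with hyy
  set xx := X (γ x3 - γ x0) with hxx
  have hw' : γ x3 - γ x0 = (xx : ℂ) * u + (yy : ℂ) * (I * u) := decomp hd (γ x3 - γ x0)
  have hy0 : yy ≠ 0 := by
    intro h0
    have h5 : |yy| - r * |c| = 0 := e4
    rw [h0, abs_zero] at h5
    have : 0 < r * |c| := by positivity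
    linarith
  have habs : yy = r * c ∨ yy = -(r * c) := by
    have h5 : |yy| - r * |c| = 0 := e4
    have h6 : |yy| = |r * c| := by
      rw [abs_mul, abs_of_pos hr]; linarith
    exact abs_eq_abs.1 h6
  let S : ℂ →ₗ[ℝ] ℂ := ((X : ℂ →ₗ[ℝ] ℝ).smulRight u) +
    ((Y : ℂ →ₗ[ℝ] ℝ).smulRight (I * u + (-(xx / yy)) • u))
  have hS : ∀ z, S z = (X z : ℂ) * u + (Y z : ℂ) * (I * u + (-(xx / yy) : ℝ) * u) := by
    intro z
    simp [S]
    ring
  have hSc : ∀ a b : ℝ, S (a * u + b * (I * u)) = a * u + b * (I * u + (-(xx / yy) : ℝ) * u) := by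
    intro a b
    rw [hS, hX, hY, cx_smul _ _ hd, cy_smul _ _ hd]
  have hSw : S (γ x1 - γ x0) = (c : ℂ) * u := by
    have := hSc c 0
    simp only [ofReal_zero, zero_mul, add_zero] at this
    rw [hw, this]
  have hSw' : S (γ x3 - γ x0) = (yy : ℂ) * (I * u) := by
    rw [hw', hSc]
    have hyc : (yy : ℂ) ≠ 0 := by exact_mod_cast hy0
    push_cast
    field_simp
    ring
  have hc0 : (c : ℂ) ≠ 0 := by exact_mod_cast e2
  refine ⟨-(xx / yy), S, ?_, ?_, ?_⟩
  · have := hSc 1 0
    simpa using this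
  · have := hSc 0 1
    simpa using this
  · rcases habs with h5 | h5
    · refine ⟨x0, x1, x2, x3, (c : ℂ) * u, mul_ne_zero hc0 hu, ?_, ?_, ?_, c, hw⟩
      · rw [← hSw, map_sub]; ring
      · have h2 : γ x2 = γ x0 + (γ x1 - γ x0) + (γ x3 - γ x0) := by
          rw [e3]; ring
        conv_lhs => rw [h2]
        rw [map_add, map_add, hSw, hSw', h5]
        push_cast
        ring
      · have h2 : γ x3 = γ x0 + (γ x3 - γ x0) := by ring
        conv_lhs => rw [h2]
        rw [map_add, hSw', h5]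
        push_cast
        ring
    · refine ⟨x3, x2, x1, x0, (c : ℂ) * u, mul_ne_zero hc0 hu, ?_, ?_, ?_, c, by rw [← e3, hw]⟩
      · rw [← hSw, e3, map_sub]; ring
      · have h2 : γ x1 = γ x3 + (γ x1 - γ x0) - (γ x3 - γ x0) := by ring
        conv_lhs => rw [h2]
        rw [map_sub, map_add, hSw, hSw', h5]
        push_cast
        ring
      · have h2 : γ x0 = γ x3 - (γ x3 - γ x0) := by ring
        conv_lhs => rw [h2]
        rw [map_sub, hSw', h5]
        push_cast
        ring

end Pool.Agent.N94.SJ
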