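import Mathlib
import Pool.Agent.N94.SJ.Curve
import Pool.Agent.N94.SJ.Cross

/-!
Inscribed parallelograms along paths of linear shapes.
-/

set_option autoImplicit false

namespace Pool.Agent.N94.SJ

open Set Topology Filter

/-- The quotient `A v / A e` in coordinates. -/
noncomputable def QQ (X l : ℂ →L[ℝ] ℝ) (z v : ℂ) : ℂ := (X v : ℂ) + z * (l v : ℂ)

theorem QQ_re (X l : ℂ →L[ℝ] ℝ) (z v : ℂ) : (QQ X l z v).re = X v + z.re * l v := by
  simp [QQ]

theorem QQ_im (X l : ℂ →L[ℝ] ℝ) (z v : ℂ) : (QQ X l z v).im = z.im * l v := by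
  simp [QQ]

/-- `Q ^ 2 + r ^ 2 c ^ 2`. -/
noncomputable def HH (X l : ℂ →L[ℝ] ℝ) (r : ℝ) (z : ℂ) (p : ℝ × ℂ) : ℂ :=
  QQ X l z p.2 ^ 2 + ((r ^ 2 * p.1 ^ 2 : ℝ) : ℂ)

theorem HH_re (X l : ℂ →L[ℝ] ℝ) (r : ℝ) (z : ℂ) (p : ℝ × ℂ) : (HH X l r z p).re =
    (QQ X l z p.2).re ^ 2 - (QQ X l z p.2).im ^ 2 + r ^ 2 * p.1 ^ 2 := by
  unfold HH
  rw [Complex.add_re, Complex.ofReal_re, sq (QQ X l z p.2), Complex.mul_re]
  ring

theorem HH_cont (X l : ℂ →L[ℝ] ℝ) (r : ℝ) :
    Continuous fun p : ℂ × (ℝ × ℂ) => HH X l r p.1 p.2 := by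
  have := X.continuous
  have := l.continuous
  unfold HH QQ
  fun_prop

theorem HH_comp {α : Type} [TopologicalSpace α] (X l : ℂ →L[ℝ] ℝ) (r : ℝ) (f : α → ℂ)
    (g : α → ℝ × ℂ) (hf : Continuous f) (hg : Continuous g) :
    Continuous fun a => HH X l r (f a) (g a) := by
  have := X.continuous
  have := l.continuous
  unfold HH QQ
  fun_prop

/-- The lower bound of `|Q|` near `T`, uniform on the path. -/
theorem lower (X l : ℂ →L[ℝ] ℝ) (T : ℂ) (hlT : l T ≠ 0) (k : ℝ)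
    (hT : X T * (X T + l T / k) < 0) (q : ℝ → ℂ) (hq : Continuous q) (hqi : ∀ τ, (q τ).im ≠ 0)
    (htop : Tendsto q atTop (𝓝 0)) (hbot : Tendsto q atBot (𝓝 ((k⁻¹ : ℝ) : ℂ))) :
    ∃ μ ε : ℝ, 0 < μ ∧ 0 < ε ∧ ∀ v, ‖v - T‖ < ε → ∀ τ, μ ≤ ‖QQ X l (q τ) v‖ := by
  -- the compact set of all values
  have hXT : X T ≠ 0 := left_ne_zero_of_mul hT.ne
  have hYT : X T + l T / k ≠ 0 := right_ne_zero_of_mul hT.ne
  have hlim1 : Tendsto (fun τ => ‖QQ X l (q τ) T‖) atTop (𝓝 ‖QQ X l 0 T‖) := by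
    have hc : Continuous fun z : ℂ => ‖QQ X l z T‖ := by unfold QQ; fun_prop
    exact (hc.tendsto 0).comp htop
  have hlim2 : Tendsto (fun τ => ‖QQ X l (q τ) T‖) atBot (𝓝 ‖QQ X l ((k⁻¹ : ℝ) : ℂ) T‖) := by
    have hc : Continuous fun z : ℂ => ‖QQ X l z T‖ := by unfold QQ; fun_prop
    exact (hc.tendsto _).comp hbot
  have hn1 : 0 < ‖QQ X l 0 T‖ := by
    rw [norm_pos_iff]
    intro h
    have := QQ_re X l 0 T
    rw [h] at this
    simp at this
    exact hXT this.symm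
  have hn2 : 0 < ‖QQ X l ((k⁻¹ : ℝ) : ℂ) T‖ := by
    rw [norm_pos_iff]
    intro h
    have := QQ_re X l ((k⁻¹ : ℝ) : ℂ) T
    rw [h] at this
    apply hYT
    simp only [Complex.zero_re, Complex.ofReal_re] at this
    rw [div_eq_mul_inv, mul_comm (l T)]
    exact this.symm
  have hcq : Continuous fun τ => ‖QQ X l (q τ) T‖ := by unfold QQ; fun_prop
  obtain ⟨N1, hN1⟩ := (hlim1.eventually_const_lt (half_lt_self hn1)).exists_forall_of_atTop
  obtain ⟨N2, hN2⟩ := (hlim2.eventually_const_lt (half_lt_self hn2)).exists_forall_of_atBot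
  obtain ⟨τ0, _, hτ0⟩ := (isCompact_Icc (a := min N2 N1) (b := N1)).exists_isMinOn
    ⟨N1, min_le_right _ _, le_rfl⟩ hcq.continuousOn
  have hpos0 : 0 < ‖QQ X l (q τ0) T‖ := by
    rw [norm_pos_iff]
    intro h
    have := QQ_im X l (q τ0) T
    rw [h] at this
    exact mul_ne_zero (hqi τ0) hlT this.symm
  set m0 := min (min (‖QQ X l 0 T‖ / 2) (‖QQ X l ((k⁻¹ : ℝ) : ℂ) T‖ / 2)) ‖QQ X l (q τ0) T‖ with hm0
  have hm0pos : 0 < m0 := by positivity
  have hlow : ∀ τ, m0 ≤ ‖QQ X l (q τ) T‖ := by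
    intro τ
    by_cases h1 : N1 ≤ τ
    · exact ((min_le_left _ _).trans (min_le_left _ _)).trans (hN1 τ h1).le
    by_cases h2 : τ ≤ N2
    · exact ((min_le_left _ _).trans (min_le_right _ _)).trans (hN2 τ h2).le
    push Not at h1 h2
    exact (min_le_right _ _).trans (hτ0 ⟨(min_le_left _ _).trans h2.le, h1.le⟩)
  -- the path is bounded
  obtain ⟨B, hB0, hB⟩ : ∃ B : ℝ, 0 ≤ B ∧ ∀ τ, ‖q τ‖ ≤ B := by
    have b1 : Tendsto (fun τ => ‖q τ‖) atTop (𝓝 ‖(0 : ℂ)‖) := htop.norm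
    have b2 : Tendsto (fun τ => ‖q τ‖) atBot (𝓝 ‖((k⁻¹ : ℝ) : ℂ)‖) := hbot.norm
    obtain ⟨M1, hM1⟩ := (b1.eventually_lt_const (lt_add_one _)).exists_forall_of_atTop
    obtain ⟨M2, hM2⟩ := (b2.eventually_lt_const (lt_add_one _)).exists_forall_of_atBot
    obtain ⟨τ1, _, hτ1⟩ := (isCompact_Icc (a := min M2 M1) (b := M1)).exists_isMaxOn
      ⟨M1, min_le_right _ _, le_rfl⟩ hq.norm.continuousOn
    refine ⟨max (max (‖(0 : ℂ)‖ + 1) (‖((k⁻¹ : ℝ) : ℂ)‖ + 1)) ‖q τ1‖, by positivity, fun τ => ?_⟩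
    by_cases h1 : M1 ≤ τ
    · exact (hM1 τ h1).le.trans ((le_max_left _ _).trans (le_max_left _ _))
    by_cases h2 : τ ≤ M2
    · exact (hM2 τ h2).le.trans ((le_max_right _ _).trans (le_max_left _ _))
    push Not at h1 h2
    exact (hτ1 ⟨(min_le_left _ _).trans h2.le, h1.le⟩ : ‖q τ‖ ≤ ‖q τ1‖).trans (le_max_right _ _)
  set K := ‖X‖ + B * ‖l‖ + 1 with hK
  have hK0 : 0 < K := by positivity
  refine ⟨m0 / 2, m0 / (2 * K), by positivity, by positivity, ?_⟩
  intro v hv τ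
  have e1 : QQ X l (q τ) v = QQ X l (q τ) T + QQ X l (q τ) (v - T) := by
    unfold QQ
    rw [map_sub, map_sub]
    push_cast
    ring
  have e2 : ‖QQ X l (q τ) (v - T)‖ ≤ K * ‖v - T‖ := by
    unfold QQ
    refine (norm_add_le _ _).trans ?_
    rw [norm_mul, Complex.norm_real, Complex.norm_real]
    have f1 := X.le_opNorm (v - T)
    have f2 := l.le_opNorm (v - T)
    have f3 := hB τ
    have f4 : ‖q τ‖ * ‖l (v - T)‖ ≤ B * (‖l‖ * ‖v - T‖) :=
      mul_le_mul f3 f2 (norm_nonneg _) hB0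
    have f5 := norm_nonneg (v - T)
    calc ‖X (v - T)‖ + ‖q τ‖ * ‖l (v - T)‖ ≤ ‖X‖ * ‖v - T‖ + B * (‖l‖ * ‖v - T‖) := add_le_add f1 f4
      _ = (‖X‖ + B * ‖l‖) * ‖v - T‖ := by ring
      _ ≤ K * ‖v - T‖ := by
        apply mul_le_mul_of_nonneg_right _ f5
        rw [hK]; linarith
  have e3 : K * ‖v - T‖ ≤ m0 / 2 := by
    have := mul_le_mul_of_nonneg_left hv.le hK0.le
    refine this.trans (le_of_eq ?_)
    field_simp
  have e4 := hlow τ
  have e5 : ‖QQ X l (q τ) T‖ - ‖QQ X l (q τ) (v - T)‖ ≤ ‖QQ X l (q τ) v‖ := by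
    rw [e1]
    have := norm_sub_le (QQ X l (q τ) T + QQ X l (q τ) (v - T)) (QQ X l (q τ) (v - T))
    rw [add_sub_cancel_right] at this
    linarith
  linarith

/-- The main theorem along a path. -/
theorem path_lemma (γ : Circle → ℂ) (hγ : Continuous γ) (hinj : Function.Injective γ)
    (X l : ℂ →L[ℝ] ℝ) (hlm : ∀ z, l z = 0 → X z = 0 → z = 0) (x y : Circle)
    (hx : ∀ z, l (γ x) ≤ l (γ z)) (hy : ∀ z, l (γ z) ≤ l (γ y)) (k : ℝ) (r : ℝ)
    (hr : 0 < r) (q : ℝ → ℂ) (hq : Continuous q) (hqi : ∀ τ, (q τ).im ≠ 0)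
    (htop : Tendsto q atTop (𝓝 0)) (hbot : Tendsto q atBot (𝓝 ((k⁻¹ : ℝ) : ℂ)))
    (hT : X (γ y - γ x) * (X (γ y - γ x) + l (γ y - γ x) / k) < 0) :
    ∃ x0 x1 x2 x3 : Circle, ∃ τ : ℝ, l (γ x1 - γ x0) = 0 ∧ X (γ x1 - γ x0) ≠ 0 ∧
      γ x1 - γ x0 = γ x2 - γ x3 ∧
      QQ X l (q τ) (γ x3 - γ x0) ^ 2 + ((r ^ 2 * X (γ x1 - γ x0) ^ 2 : ℝ) : ℂ) = 0 := by
  classical
  set T := γ y - γ x with hTdef
  have hlT0 : 0 ≤ l T := by rw [hTdef, map_sub]; linarith [hx y]
  have hlT : l T ≠ 0 := by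
    intro h0
    rw [h0, zero_div, add_zero] at hT
    nlinarith [sq_nonneg (X T)]
  have hlT1 : 0 < l T := lt_of_le_of_ne hlT0 hlT.symm
  have hxy : x ≠ y := by
    rintro rfl
    rw [hTdef, sub_self, map_zero] at hlT
    exact hlT rfl
  have hll : ∀ z z' : Circle, |l (γ z - γ z')| ≤ l T := by
    intro z z'
    rw [hTdef, map_sub, map_sub, abs_le]
    constructor <;> linarith [hx z, hx z', hy z, hy z']
  obtain ⟨μ, ε, hμ, hε, hlow⟩ := lower X l T hlT k hT q hq hqi htop hbot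
  set ε0 := min ε (μ / (2 * r)) with hε0def
  have hε0 : 0 < ε0 := by positivity
  obtain ⟨δ, hδ, HC⟩ := curve_unif γ hγ hinj l X hlm x y hxy hx hy ε0 hε0
  -- the choice of `N`
  have him1 : Tendsto (fun N : ℝ => |(q N).im|) atTop (𝓝 0) := by
    have hc : Continuous fun z : ℂ => |z.im| := by fun_prop
    have := (hc.tendsto 0).comp htop
    simpa [Function.comp_def] using this
  have him2 : Tendsto (fun N : ℝ => |(q (-N)).im|) atTop (𝓝 0) := by
    have hc : Continuous fun z : ℂ => |z.im| := by fun_prop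
    have := ((hc.tendsto _).comp hbot).comp tendsto_neg_atTop_atBot
    simpa [Function.comp_def] using this
  have hre1 : Tendsto (fun N : ℝ => (QQ X l (q N) T).re * (QQ X l (q (-N)) T).re) atTop
      (𝓝 (X T * (X T + l T / k))) := by
    have hc : Continuous fun z : ℂ => (QQ X l z T).re := by unfold QQ; fun_prop
    have t1 := (hc.tendsto 0).comp htop
    have t2 := ((hc.tendsto _).comp hbot).comp tendsto_neg_atTop_atBot
    have e1 : (QQ X l 0 T).re = X T := by rw [QQ_re]; simp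
    have e2 : (QQ X l ((k⁻¹ : ℝ) : ℂ) T).re = X T + l T / k := by
      rw [QQ_re, Complex.ofReal_re, div_eq_mul_inv, mul_comm (l T)]
    have t3 := t1.mul t2
    rw [e1, e2] at t3
    exact t3
  set D1 := l T + ‖l‖ * ε0 with hD1
  have hD1pos : 0 < D1 := by positivity
  have hsmall : 0 < min (μ / (2 * D1)) (r * δ / (2 * l T)) := by positivity
  obtain ⟨N, hN0, hN1, hN2, hN3⟩ : ∃ N : ℝ, 0 ≤ N ∧
      |(q N).im| < min (μ / (2 * D1)) (r * δ / (2 * l T)) ∧
      |(q (-N)).im| < min (μ / (2 * D1)) (r * δ / (2 * l T)) ∧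
      (QQ X l (q N) T).re * (QQ X l (q (-N)) T).re < 0 :=
    ((eventually_ge_atTop 0).and ((him1.eventually_lt_const hsmall).and
      ((him2.eventually_lt_const hsmall).and (hre1.eventually_lt_const hT)))).exists
  -- the closed set
  let U : Set (ℝ × ℂ) := {p | (∀ τ ∈ Icc (-N) N, HH X l r (q τ) p ≠ 0) ∧
    0 < (HH X l r (q N) p).re ∧ 0 < (HH X l r (q (-N)) p).re}
  have hUo : IsOpen U := by
    have o1 : IsOpen {p : ℝ × ℂ | ∀ τ ∈ Icc (-N) N, HH X l r (q τ) p ≠ 0} := by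
      rw [isOpen_iff_eventually]
      intro p hp
      apply isCompact_Icc.eventually_forall_of_forall_eventually
      intro τ hτ
      have hc : Continuous fun z : (ℝ × ℂ) × ℝ => HH X l r (q z.2) z.1 :=
        HH_comp X l r (fun z : (ℝ × ℂ) × ℝ => q z.2) (fun z => z.1) (hq.comp continuous_snd)
          continuous_fst
      exact hc.continuousAt.eventually_ne (hp τ hτ)
    have o2 : ∀ z, IsOpen {p : ℝ × ℂ | 0 < (HH X l r z p).re} := by
      intro z
      have hc0 : Continuous fun p : ℝ × ℂ => HH X l r z p :=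
        HH_comp X l r (fun _ : ℝ × ℂ => z) (fun p => p) continuous_const continuous_id
      have hc : Continuous fun p : ℝ × ℂ => (HH X l r z p).re := Complex.continuous_re.comp hc0
      exact isOpen_lt continuous_const hc
    exact o1.inter ((o2 _).inter (o2 _))
  -- the ball
  let Bl : Set (ℝ × ℂ) := Metric.ball (0 : ℝ) ε0 ×ˢ Metric.ball T ε0
  have hBlU : Bl ⊆ U := by
    rintro ⟨c, v⟩ ⟨hc, hv⟩
    simp only [Metric.mem_ball, sub_zero, dist_eq_norm] at hc hv
    have hv' : ‖v - T‖ < ε := hv.trans_le (min_le_left _ _)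
    have hrc : r * |c| ≤ μ / 2 := by
      have h1 : |c| ≤ μ / (2 * r) := hc.le.trans (min_le_right _ _)
      have h2 := mul_le_mul_of_nonneg_left h1 hr.le
      have h3 : r * (μ / (2 * r)) = μ / 2 := by field_simp
      rw [h3] at h2
      exact h2
    have hlv : |l v| ≤ D1 := by
      have h1 : l v = l T + l (v - T) := by rw [map_sub l v T]; ring
      rw [h1, hD1]
      refine (abs_add_le _ _).trans ?_
      rw [abs_of_pos hlT1]
      have h2 := l.le_opNorm (v - T)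
      rw [Real.norm_eq_abs] at h2
      have h3 := mul_le_mul_of_nonneg_left hv.le (norm_nonneg l)
      linarith
    have hre : ∀ z : ℂ, |z.im| < min (μ / (2 * D1)) (r * δ / (2 * l T)) → μ ≤ ‖QQ X l z v‖ →
        0 < (HH X l r z (c, v)).re := by
      intro z hz hz2
      rw [HH_re]
      simp only
      have h1 : |z.im| * D1 < μ / 2 := by
        have h2 := mul_lt_mul_of_pos_right (hz.trans_le (min_le_left _ _)) hD1pos
        have h3 : μ / (2 * D1) * D1 = μ / 2 := by field_simp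
        rw [h3] at h2
        exact h2
      have h2 : |(QQ X l z v).im| < μ / 2 := by
        rw [QQ_im, abs_mul]
        exact (mul_le_mul_of_nonneg_left hlv (abs_nonneg _)).trans_lt h1
      have h3 : (QQ X l z v).im ^ 2 < (μ / 2) ^ 2 := by
        rw [← sq_abs]
        exact pow_lt_pow_left₀ h2 (abs_nonneg _) two_ne_zero
      have h4 : ‖QQ X l z v‖ ^ 2 = (QQ X l z v).re ^ 2 + (QQ X l z v).im ^ 2 := by
        rw [Complex.sq_norm, Complex.normSq_apply]; ring
      have h5 : μ ^ 2 ≤ ‖QQ X l z v‖ ^ 2 := pow_le_pow_left₀ hμ.le hz2 2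
      have h6 : 0 ≤ r ^ 2 * c ^ 2 := by positivity
      nlinarith
    have hu1 := hre _ hN1 (hlow v hv' N)
    have hu2 := hre _ hN2 (hlow v hv' (-N))
    suffices hu0 : ∀ τ ∈ Icc (-N) N, HH X l r (q τ) (c, v) ≠ 0 by
      exact And.intro hu0 (And.intro hu1 hu2)
    intro τ _ h0
    have h1 : QQ X l (q τ) v ^ 2 = -((r ^ 2 * c ^ 2 : ℝ) : ℂ) := by
      unfold HH at h0
      exact eq_neg_of_add_eq_zero_left h0
    have h2 : ‖QQ X l (q τ) v‖ ^ 2 = (r * |c|) ^ 2 := by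
      rw [← norm_pow, h1, norm_neg, Complex.norm_real, Real.norm_eq_abs, abs_of_nonneg (by positivity),
        mul_pow, sq_abs]
    have h3 := hlow v hv' τ
    have h4 : (r * |c|) ^ 2 ≤ (μ / 2) ^ 2 := pow_le_pow_left₀ (by positivity) hrc 2
    have h5 : μ ^ 2 ≤ ‖QQ X l (q τ) v‖ ^ 2 := pow_le_pow_left₀ hμ.le h3 2
    nlinarith
  -- the component
  have hmemBl : ((0 : ℝ), T) ∈ Bl := ⟨Metric.mem_ball_self hε0, Metric.mem_ball_self hε0⟩
  have hmemU : ((0 : ℝ), T) ∈ U := hBlU hmemBl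
  let V : Set (ℝ × ℂ) := connectedComponentIn U (0, T)
  have hVo : IsOpen V := hUo.connectedComponentIn
  have hVU : V ⊆ U := connectedComponentIn_subset _ _
  have hVmem : ((0 : ℝ), T) ∈ V := mem_connectedComponentIn hmemU
  have hVc : IsConnected V := ⟨⟨_, hVmem⟩, isPreconnected_connectedComponentIn⟩
  have hVp : IsPathConnected V := hVo.isConnected_iff_isPathConnected.1 hVc
  have hBlV : Bl ⊆ V := by
    apply IsPreconnected.subset_connectedComponentIn _ hmemBl hBlU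
    exact ((convex_ball (0 : ℝ) ε0).prod (convex_ball T ε0)).isPreconnected
  have hcV : ∀ c : ℝ, c ≠ 0 → ((c, (0 : ℂ)) : ℝ × ℂ) ∉ V := by
    intro c hc hmem
    obtain ⟨Pe, hPe, hPeV, hP0, hP1⟩ : ∃ Pe : ℝ → ℝ × ℂ, Continuous Pe ∧ (∀ a, Pe a ∈ V) ∧
        Pe 0 = (0, T) ∧ Pe 1 = (c, 0) := by
      obtain ⟨P, hP⟩ := hVp.joinedIn _ hVmem _ hmem
      exact ⟨P.extend, P.continuous_extend, fun a => hP _, P.extend_zero, P.extend_one⟩
    have hPeU : ∀ a, Pe a ∈ U := fun a => hVU (hPeV a)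
    obtain ⟨cl, hclc, hcl, hclN, hclN'⟩ : ∃ cl : ℝ → ℝ, Continuous cl ∧
        (∀ τ, cl τ ∈ Icc (-N) N) ∧ cl N = N ∧ cl (-N) = -N := by
      refine ⟨fun τ => max (-N) (min N τ), by fun_prop, fun τ => ?_, ?_, ?_⟩
      · exact ⟨le_max_left _ _, max_le (by linarith) (min_le_left _ _)⟩
      · show max (-N) (min N N) = N
        rw [min_self, max_eq_right (by linarith)]
      · show max (-N) (min N (-N)) = -N
        rw [min_eq_right (by linarith), max_self]
    obtain ⟨H, hHdef⟩ : ∃ H : ℝ × ℝ → ℂ, ∀ p, H p = HH X l r (q (cl p.2)) (Pe p.1) :=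
      ⟨_, fun _ => rfl⟩
    obtain ⟨G, hGdef⟩ : ∃ G : ℝ → ℂ, ∀ τ, G τ = QQ X l (q (cl τ)) T := ⟨_, fun _ => rfl⟩
    have c1 : Continuous H := by
      have hc3 := HH_comp X l r (fun p : ℝ × ℝ => q (cl p.2)) (fun p : ℝ × ℝ => Pe p.1)
        (hq.comp (hclc.comp continuous_snd)) (hPe.comp continuous_fst)
      have h4 : H = fun p : ℝ × ℝ => HH X l r (q (cl p.2)) (Pe p.1) := funext fun p => hHdef p
      rw [h4]
      exact hc3
    have c2 : ∀ p, H p ≠ 0 := by
      intro p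
      rw [hHdef]
      exact (hPeU p.1).1 _ (hcl p.2)
    have c3 : ∀ a, 0 < (H (a, N)).re := by
      intro a
      rw [hHdef]
      simp only [hclN]
      exact (hPeU a).2.1
    have c4 : ∀ a, 0 < (H (a, -N)).re := by
      intro a
      rw [hHdef]
      simp only [hclN']
      exact (hPeU a).2.2
    have c5 : ∀ τ, 0 < (H (1, τ)).re := by
      intro τ
      rw [hHdef]
      simp only [hP1]
      rw [HH_re, QQ_re, QQ_im]
      simp only [map_zero, mul_zero, add_zero]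
      have : 0 < r ^ 2 * c ^ 2 := by positivity
      linarith
    have c6 : Continuous G := by
      have h1 : G = fun τ => QQ X l (q (cl τ)) T := funext hGdef
      rw [h1]
      unfold QQ
      have h2 : Continuous fun τ => q (cl τ) := hq.comp hclc
      fun_prop
    have c7 : ∀ τ, H (0, τ) = G τ ^ 2 := by
      intro τ
      rw [hHdef, hGdef]
      simp only [hP0]
      unfold HH
      simp
    have := crossing H c1 c2 N c3 c4 c5 G c6 c7
    rw [hGdef, hGdef] at this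
    simp only [hclN, hclN'] at this
    linarith
  -- the function
  have hVne : V.Nonempty := ⟨_, hVmem⟩
  have hVcne : Vᶜ.Nonempty := ⟨(1, 0), hcV 1 one_ne_zero⟩
  let Φ : ℝ × ℂ → ℝ := fun p => Metric.infDist p Vᶜ - Metric.infDist p V
  have hΦ : Continuous Φ := (Metric.continuous_infDist_pt _).sub (Metric.continuous_infDist_pt _)
  obtain ⟨x0, x1, x2, x3, e1, e2, e3, e4⟩ := HC Φ hΦ
    (fun c hc => by
      have h1 : ((c, (0 : ℂ)) : ℝ × ℂ) ∈ Vᶜ := hcV c (by
        rintro rfl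
        rw [abs_zero] at hc
        linarith)
      show Metric.infDist _ Vᶜ - Metric.infDist _ V ≤ 0
      rw [Metric.infDist_zero_of_mem h1]
      have := Metric.infDist_nonneg (x := ((c, (0 : ℂ)) : ℝ × ℂ)) (s := V)
      linarith)
    (fun c v hc hv => by
      have h1 : ((c, v) : ℝ × ℂ) ∈ V := hBlV ⟨by
        rw [Metric.mem_ball, Real.dist_eq, sub_zero]; exact hc, by
        rw [Metric.mem_ball, dist_eq_norm]; exact hv⟩
      show 0 ≤ Metric.infDist _ Vᶜ - Metric.infDist _ V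
      rw [Metric.infDist_zero_of_mem h1]
      have := Metric.infDist_nonneg (x := ((c, v) : ℝ × ℂ)) (s := Vᶜ)
      linarith)
  have hnotU : (X (γ x1 - γ x0), γ x3 - γ x0) ∉ U := by
    intro hU
    set p : ℝ × ℂ := (X (γ x1 - γ x0), γ x3 - γ x0) with hp
    have e4' : Metric.infDist p Vᶜ - Metric.infDist p V = 0 := e4
    by_cases hpV : p ∈ V
    · have h1 : 0 < Metric.infDist p Vᶜ :=
        (hVo.isClosed_compl.notMem_iff_infDist_pos hVcne).1 (by simpa using hpV)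
      rw [Metric.infDist_zero_of_mem hpV] at e4'
      linarith
    · have h1 : 0 < Metric.infDist p V := by
        have hcl : p ∉ closure V := by
          intro hcl
          rw [mem_closure_iff] at hcl
          obtain ⟨z, hz1, hz2⟩ := hcl _ hUo.connectedComponentIn (mem_connectedComponentIn hU)
          have q1 := connectedComponentIn_eq hz1
          have q2 := connectedComponentIn_eq hz2
          apply hpV
          show p ∈ connectedComponentIn U (0, T)
          rw [q2, ← q1]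
          exact mem_connectedComponentIn hU
        rw [← Metric.infDist_closure]
        exact (isClosed_closure.notMem_iff_infDist_pos (hVne.mono subset_closure)).1 hcl
      rw [Metric.infDist_zero_of_mem (s := Vᶜ) hpV] at e4'
      linarith
  -- the bad part is impossible
  have hbad : ∀ z : ℂ, |z.im| < min (μ / (2 * D1)) (r * δ / (2 * l T)) →
      0 < (HH X l r z (X (γ x1 - γ x0), γ x3 - γ x0)).re := by
    intro z hz
    rw [HH_re, QQ_im]
    simp only
    have h1 : |z.im| * l T < r * δ := by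
      have h2 := mul_lt_mul_of_pos_right (hz.trans_le (min_le_right _ _)) hlT1
      have h3 : r * δ / (2 * l T) * l T = r * δ / 2 := by field_simp
      rw [h3] at h2
      have h4 : 0 < r * δ := by positivity
      linarith
    have h2 : |z.im * l (γ x3 - γ x0)| < r * δ := by
      rw [abs_mul]
      exact (mul_le_mul_of_nonneg_left (hll _ _) (abs_nonneg _)).trans_lt h1
    have h3 : (z.im * l (γ x3 - γ x0)) ^ 2 < (r * δ) ^ 2 := by
      rw [← sq_abs]
      exact pow_lt_pow_left₀ h2 (abs_nonneg _) two_ne_zero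
    have h4 : (r * δ) ^ 2 ≤ r ^ 2 * X (γ x1 - γ x0) ^ 2 := by
      rw [mul_pow, ← sq_abs (X _)]
      exact mul_le_mul_of_nonneg_left (pow_le_pow_left₀ hδ.le e2 2) (by positivity)
    have h5 := sq_nonneg (QQ X l z (γ x3 - γ x0)).re
    linarith
  have h2 : ¬ ∀ τ ∈ Icc (-N) N, HH X l r (q τ) (X (γ x1 - γ x0), γ x3 - γ x0) ≠ 0 := by
    intro h
    exact hnotU ⟨h, hbad _ hN1, hbad _ hN2⟩
  push Not at h2
  obtain ⟨τ, _, hτ⟩ := h2
  have hτ' : QQ X l (q τ) (γ x3 - γ x0) ^ 2 + ((r ^ 2 * X (γ x1 - γ x0) ^ 2 : ℝ) : ℂ) = 0 := by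
    unfold HH at hτ
    exact hτ
  refine ⟨x0, x1, x2, x3, τ, e1, ?_, e3, hτ'⟩
  intro h0
  rw [h0, abs_zero] at e2
  linarith

end Pool.Agent.N94.SJ
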