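import Mathlib
import Pool.Agent.N94.SJ.Main
import Pool.Agent.N94.SJ.PathThm

/-!
Paths of linear maps joining two different points at infinity of the space of shapes.
-/

set_option autoImplicit false

namespace Pool.Agent.N94.SJ

open Set Complex Topology Filter

/-- The directions of the sides: an open set of `k` such that the functional `Y - k X` has its
extremes at points `x`, `y` with `X (γ y - γ x)` and `Y (γ y - γ x) / k` of opposite signs. -/
theorem dirs (γ : Circle → ℂ) (hγ : Continuous γ) (hinj : Function.Injective γ)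
    (u v : ℂ) (hd : dd u v ≠ 0) (hR : ¬ InRhomb γ u v) :
    ∃ k1 k2 : ℝ, k1 < k2 ∧ ∀ k ∈ Ioo k1 k2, k ≠ 0 ∧ ∃ x y : Circle,
      (∀ z, (cy u v - k • cx u v) (γ x) ≤ (cy u v - k • cx u v) (γ z)) ∧
      (∀ z, (cy u v - k • cx u v) (γ z) ≤ (cy u v - k • cx u v) (γ y)) ∧
      cx u v (γ y - γ x) * (cx u v (γ y - γ x) + (cy u v - k • cx u v) (γ y - γ x) / k) < 0 := by
  classical
  set X := cx u v with hX
  set Y := cy u v with hY
  obtain ⟨xl, xr, hxl, hxr⟩ := extremes γ hγ X
  obtain ⟨yb, yt, hyb, hyt⟩ := extremes γ hγ Y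
  set W' := X (γ xr) - X (γ xl) with hW'
  set W := Y (γ yt) - Y (γ yb) with hW
  have hW'0 : 0 < W' := by
    obtain ⟨z, z', hz⟩ := noline γ hγ hinj X Y (fun z h1 h2 => sep hd h1 h2)
    have := hxl z; have := hxr z'
    linarith
  have hW0 : 0 < W := by
    obtain ⟨z, z', hz⟩ := noline γ hγ hinj Y X (fun z h1 h2 => sep hd h2 h1)
    have := hyb z; have := hyt z'
    linarith
  have hXb : ∀ z z' : Circle, |X (γ z) - X (γ z')| ≤ W' := by
    intro z z'
    rw [abs_le]
    constructor
    · linarith [hxl z, hxr z']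
    · linarith [hxl z', hxr z]
  have hYb : ∀ z z' : Circle, |Y (γ z) - Y (γ z')| ≤ W := by
    intro z z'
    rw [abs_le]
    constructor
    · linarith [hyb z, hyt z']
    · linarith [hyb z', hyt z]
  by_cases hD : ∃ p q : Circle, W * W' < W * |X (γ q) - X (γ p)| + W' * |Y (γ q) - Y (γ p)|
  · -- the main case
    obtain ⟨p, q, hpq, hYpq⟩ : ∃ p q : Circle,
        W * W' < W * |X (γ q) - X (γ p)| + W' * |Y (γ q) - Y (γ p)| ∧ 0 ≤ Y (γ q) - Y (γ p) := by
      obtain ⟨p, q, hpq⟩ := hD
      rcases le_total 0 (Y (γ q) - Y (γ p)) with h1 | h1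
      · exact ⟨p, q, hpq, h1⟩
      · refine ⟨q, p, ?_, by linarith⟩
        rw [abs_sub_comm (X (γ p)), abs_sub_comm (Y (γ p))]
        exact hpq
    rw [abs_of_nonneg hYpq] at hpq
    set A := |X (γ q) - X (γ p)| with hA
    set B := Y (γ q) - Y (γ p) with hB
    have hAW : A ≤ W' := hXb q p
    have hBW : B ≤ W := (le_abs_self _).trans (hYb q p)
    have hA0 : 0 < A := by
      by_contra hcon
      push Not at hcon
      nlinarith
    have hB0 : 0 < B := by
      by_contra hcon
      push Not at hcon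
      nlinarith
    obtain ⟨σ, hσ, hσA⟩ : ∃ σ : ℝ, σ * σ = 1 ∧ σ * (X (γ q) - X (γ p)) = A := by
      rcases le_total 0 (X (γ q) - X (γ p)) with h1 | h1
      · exact ⟨1, by norm_num, by rw [hA, abs_of_nonneg h1, one_mul]⟩
      · exact ⟨-1, by norm_num, by rw [hA, abs_of_nonpos h1]; ring⟩
    have hσabs : |σ| = 1 := by
      have : |σ| * |σ| = 1 := by rw [← abs_mul, hσ, abs_one]
      nlinarith [abs_nonneg σ]
    have hσ0 : σ ≠ 0 := by
      rintro rfl
      simp at hσ
    set t0 := W / W' with ht0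
    have hev : ∀ᶠ t in 𝓝 t0, 0 < t ∧ t * W' < t * A + B ∧ W < t * A + B := by
      have q1 : 0 < t0 := by positivity
      have q2 : t0 * W' < t0 * A + B := by
        rw [ht0]
        field_simp
        nlinarith
      have q3 : W < t0 * A + B := by
        rw [ht0]
        have : W / W' * A + B = (W * A + W' * B) / W' := by field_simp
        rw [this, lt_div_iff₀ hW'0]
        exact hpq
      refine (lt_mem_nhds q1).and (Filter.Eventually.and ?_ ?_)
      · exact (isOpen_lt (by fun_prop : Continuous fun t : ℝ => t * W')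
          (by fun_prop : Continuous fun t : ℝ => t * A + B)).mem_nhds q2
      · exact (isOpen_lt continuous_const
          (by fun_prop : Continuous fun t : ℝ => t * A + B)).mem_nhds q3
    rw [Metric.eventually_nhds_iff] at hev
    obtain ⟨ε, hε, hev⟩ := hev
    refine ⟨-σ * t0 - ε, -σ * t0 + ε, by linarith, ?_⟩
    intro k hk
    set t := -σ * k with ht
    have hkt : k = -σ * t := by
      rw [ht]
      linear_combination (-k) * hσ
    have hdist : dist t t0 < ε := by
      rw [Real.dist_eq]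
      have : t - t0 = -σ * (k + σ * t0) := by
        rw [ht]
        linear_combination (t0) * hσ
      rw [this, abs_mul, abs_neg, hσabs, one_mul, abs_lt]
      constructor <;> linarith [hk.1, hk.2]
    obtain ⟨ht0', ht1, ht2⟩ := hev hdist
    have hk0 : k ≠ 0 := by
      rw [hkt]
      exact mul_ne_zero (neg_ne_zero.2 hσ0) ht0'.ne'
    refine ⟨hk0, ?_⟩
    -- the linear functional
    set l : ℂ →L[ℝ] ℝ := Y - k • X with hl
    have hlz : ∀ z, l z = σ * t * X z + Y z := fun z => by
      have : k * X z = -(σ * t * X z) := by rw [hkt]; ring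
      simp only [hl, ContinuousLinearMap.sub_apply, ContinuousLinearMap.smul_apply, smul_eq_mul]
      linarith
    obtain ⟨x, y, hx, hy⟩ := extremes γ hγ l
    have hlT : t * A + B ≤ l (γ y) - l (γ x) := by
      have h1 := hx p
      have h2 := hy q
      have h3 : l (γ q) - l (γ p) = t * A + B := by
        rw [hlz, hlz, ← hσA, hB]
        ring
      linarith
    have hXT := hXb y x
    have hYT := hYb y x
    have hlT' : l (γ y) - l (γ x) = σ * t * (X (γ y) - X (γ x)) + (Y (γ y) - Y (γ x)) := by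
      rw [hlz, hlz]; ring
    have hs1 : σ * (X (γ y) - X (γ x)) ≤ W' := by
      refine (le_abs_self _).trans ?_
      rw [abs_mul, hσabs, one_mul]
      exact hXT
    have hYpos : 0 < Y (γ y) - Y (γ x) := by
      have : σ * t * (X (γ y) - X (γ x)) ≤ t * W' := by
        have := mul_le_mul_of_nonneg_left hs1 ht0'.le
        linarith
      linarith
    have hXpos : 0 < σ * (X (γ y) - X (γ x)) := by
      have h1 : Y (γ y) - Y (γ x) ≤ W := (le_abs_self _).trans hYT
      have h2 : 0 < t * (σ * (X (γ y) - X (γ x))) := by linarith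
      exact (pos_iff_pos_of_mul_pos h2).1 ht0'
    refine ⟨x, y, hx, hy, ?_⟩
    have e1 : X (γ y - γ x) + l (γ y - γ x) / k = Y (γ y - γ x) / k := by
      simp only [hl, ContinuousLinearMap.sub_apply, ContinuousLinearMap.smul_apply, smul_eq_mul]
      field_simp
      ring
    rw [e1, map_sub, map_sub]
    have hmul := mul_pos hXpos hYpos
    rw [hkt, mul_div_assoc']
    have e2 : (X (γ y) - X (γ x)) * (Y (γ y) - Y (γ x)) / (-σ * t) =
        -(σ * (X (γ y) - X (γ x)) * (Y (γ y) - Y (γ x)) / t) := by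
      have hσi : σ⁻¹ = σ := inv_eq_of_mul_eq_one_left hσ
      rw [div_eq_mul_inv, mul_inv, inv_neg, hσi, div_eq_mul_inv]
      ring
    rw [e2]
    have := div_pos hmul ht0'
    linarith
  · -- the exceptional case
    exfalso
    push Not at hD
    apply hR
    have hXtb : X (γ yt) - X (γ yb) = 0 := by
      have h1 := hD yb yt
      rw [← hW, abs_of_pos hW0] at h1
      have h2 : W * |X (γ yt) - X (γ yb)| ≤ 0 := by linarith
      have h3 : |X (γ yt) - X (γ yb)| ≤ 0 := by
        by_contra hcon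
        push Not at hcon
        have := mul_pos hW0 hcon
        linarith
      exact abs_eq_zero.1 (le_antisymm h3 (abs_nonneg _))
    have hYrl : Y (γ xr) - Y (γ xl) = 0 := by
      have h1 := hD xl xr
      rw [← hW', abs_of_pos hW'0] at h1
      have h2 : W' * |Y (γ xr) - Y (γ xl)| ≤ 0 := by linarith
      have h3 : |Y (γ xr) - Y (γ xl)| ≤ 0 := by
        by_contra hcon
        push Not at hcon
        have := mul_pos hW'0 hcon
        linarith
      exact abs_eq_zero.1 (le_antisymm h3 (abs_nonneg _))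
    have i1 := hD yb xr
    have i2 := hD xl yt
    have i3 := hD xr yt
    have i4 := hD xl yb
    rw [abs_of_nonneg (by linarith [hxr yb]), abs_of_nonneg (by linarith [hyb xr])] at i1
    rw [abs_of_nonneg (by linarith [hxl yt]), abs_of_nonneg (by linarith [hyt xl])] at i2
    rw [abs_of_nonpos (by linarith [hxr yt]), abs_of_nonneg (by linarith [hyt xr])] at i3
    rw [abs_of_nonneg (by linarith [hxl yb]), abs_of_nonpos (by linarith [hyb xl])] at i4
    have s1 : W * (X (γ xr) - X (γ yb)) + W' * (Y (γ xr) - Y (γ yb)) +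
        (W * (X (γ yt) - X (γ xl)) + W' * (Y (γ yt) - Y (γ xl))) = 2 * (W * W') := by
      have e1 : X (γ yt) = X (γ yb) := by linarith
      have e2 : Y (γ xr) = Y (γ xl) := by linarith
      rw [e1, e2, hW, hW']
      ring
    have s2 : W * (-(X (γ yt) - X (γ xr))) + W' * (Y (γ yt) - Y (γ xr)) +
        (W * (X (γ yb) - X (γ xl)) + W' * (-(Y (γ yb) - Y (γ xl)))) = 2 * (W * W') := by
      have e1 : X (γ yt) = X (γ yb) := by linarith
      have e2 : Y (γ xr) = Y (γ xl) := by linarith
      rw [e1, e2, hW, hW']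
      ring
    have f1 : W * (X (γ xr) - X (γ yb)) + W' * (Y (γ xr) - Y (γ yb)) = W * W' := by linarith
    have f3 : W * (-(X (γ yt) - X (γ xr))) + W' * (Y (γ yt) - Y (γ xr)) = W * W' := by linarith
    have f2 : W * (X (γ yt) - X (γ xl)) + W' * (Y (γ yt) - Y (γ xl)) = W * W' := by linarith
    have g1 : 2 * (Y (γ xr) - Y (γ yb)) = W := by
      have e1 : X (γ yt) = X (γ yb) := by linarith
      rw [e1] at f3
      have : W' * (2 * (Y (γ xr) - Y (γ yb)) - W) = 0 := by
        rw [hW]
        linear_combination f1 - f3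
      have := (mul_eq_zero.1 this).resolve_left hW'0.ne'
      linarith
    have g2 : 2 * (X (γ xr) - X (γ yb)) = W' := by
      have : W * (2 * (X (γ xr) - X (γ yb)) - W') = 0 := by
        linear_combination 2 * f1 - W' * g1
      have := (mul_eq_zero.1 this).resolve_left hW0.ne'
      linarith
    refine ⟨yb, xr, yt, xl, ?_, ⟨W', hW'0.ne', ?_⟩, ⟨W, hW0.ne', ?_⟩, ?_⟩
    · rw [← sub_eq_zero]
      apply sep hd
      · rw [map_sub, map_add, map_add, ← hX]
        linarith
      · rw [map_sub, map_add, map_add, ← hY]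
        linarith
    · have := decomp hd (γ xr - γ xl)
      rw [map_sub, map_sub, ← hX, ← hY, hYrl] at this
      rw [this]; simp [hW']
    · have := decomp hd (γ yt - γ yb)
      rw [map_sub, map_sub, ← hX, ← hY, hXtb] at this
      rw [this]; simp [hW]
    · intro z
      set xi := X (γ z) - X (γ yb) with hxi
      set et := Y (γ z) - Y (γ yb) with het
      have j1 := hD yb z
      have j2 := hD z yt
      rw [← hxi, ← het, abs_of_nonneg (by linarith [hyb z] : 0 ≤ et)] at j1
      have e1 : X (γ yt) - X (γ z) = -xi := by rw [hxi]; linarith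
      have e2 : Y (γ yt) - Y (γ z) = W - et := by rw [het, hW]; ring
      have hWe : 0 ≤ W - et := by
        rw [← e2]; linarith [hyt z]
      rw [e1, e2, abs_neg, abs_of_nonneg hWe] at j2
      have j3 : W * |xi| ≤ W' * et := by linarith
      have k1 := le_abs_self xi
      have k2 := neg_abs_le xi
      have k3 : W * xi ≤ W * |xi| := mul_le_mul_of_nonneg_left k1 hW0.le
      have k4 : -(W * |xi|) ≤ W * xi := by
        have := mul_le_mul_of_nonneg_left k2 hW0.le
        linarith
      have hWW : 0 < W * W' := mul_pos hW0 hW'0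
      refine ⟨(W * xi + W' * et) / (W * W'), ⟨div_nonneg (by linarith) hWW.le, ?_⟩,
        (W' * et - W * xi) / (W * W'), ⟨div_nonneg (by linarith) hWW.le, ?_⟩, ?_⟩
      · rw [div_le_one hWW]; linarith
      · rw [div_le_one hWW]; linarith
      · rw [← sub_eq_zero]
        have hm : ∀ (F : ℂ →L[ℝ] ℝ) (a : ℝ) (z : ℂ), F ((a : ℂ) * z) = a * F z := by
          intro F a z
          rw [← Complex.real_smul, map_smul, smul_eq_mul]
        apply sep hd
        · rw [map_sub, map_add, map_add, hm, hm, map_sub, map_sub, ← hX]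
          have e3 : X (γ xr) - X (γ yb) = W' / 2 := by linarith
          have e4 : X (γ xl) - X (γ yb) = -(W' / 2) := by linarith
          rw [e3, e4]
          have : X (γ z) = X (γ yb) + xi := by rw [hxi]; ring
          rw [this]
          field_simp
          ring
        · rw [map_sub, map_add, map_add, hm, hm, map_sub, map_sub, ← hY]
          have e3 : Y (γ xr) - Y (γ yb) = W / 2 := by linarith
          have e4 : Y (γ xl) - Y (γ yb) = W / 2 := by linarith
          rw [e3, e4]
          have : Y (γ z) = Y (γ yb) + et := by rw [het]; ring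
          rw [this]
          field_simp
          ring


theorem rect_mk (γ : Circle → ℂ) (S : ℂ →ₗ[ℝ] ℂ) (r : ℝ) (e : ℂ) (x0 x1 x2 x3 : Circle)
    (hpar : γ x1 - γ x0 = γ x2 - γ x3) (c : ℝ) (hw : γ x1 - γ x0 = c * e)
    (hb : S (γ x1 - γ x0) ≠ 0)
    (h : S (γ x3 - γ x0) = r * I * S (γ x1 - γ x0) ∨
      S (γ x3 - γ x0) = -(r * I * S (γ x1 - γ x0))) : Rect γ S r e := by
  rcases h with h | h
  · refine ⟨x0, x1, x2, x3, S (γ x1 - γ x0), hb, ?_, ?_, ?_, c, hw⟩
    · rw [map_sub]; ring
    · have h2 : γ x2 = γ x0 + (γ x1 - γ x0) + (γ x3 - γ x0) := by rw [hpar]; ring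
      conv_lhs => rw [h2]
      rw [map_add, map_add, h]
    · rw [← h, map_sub]; ring
  · refine ⟨x3, x2, x1, x0, S (γ x1 - γ x0), hb, ?_, ?_, ?_, c, by rw [← hpar, hw]⟩
    · rw [hpar, map_sub]; ring
    · have h2 : γ x1 = γ x3 + (γ x1 - γ x0) - (γ x3 - γ x0) := by ring
      conv_lhs => rw [h2]
      rw [map_sub, map_add, h]
      ring
    · have h2 : γ x0 = γ x3 - (γ x3 - γ x0) := by ring
      conv_lhs => rw [h2]
      rw [map_sub, h]
      ring

/-- The theorem for paths of shapes. -/
theorem paths (γ : Circle → ℂ) (hγ : Continuous γ) (hinj : Function.Injective γ)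
    (u v : ℂ) (hd : dd u v ≠ 0) (hR : ¬ InRhomb γ u v) :
    ∃ k1 k2 : ℝ, k1 < k2 ∧ ∀ k ∈ Ioo k1 k2, k ≠ 0 ∧ ∀ r : ℝ, 0 < r →
      ∀ A : ℝ → (ℂ →ₗ[ℝ] ℂ), (∀ z, Continuous fun τ => A τ z) →
        (∀ τ, Function.Injective (A τ)) →
        Tendsto (fun τ => ‖A τ u‖ / ‖A τ v‖) atBot (𝓝 0) →
        Tendsto (fun τ => ‖A τ v‖ / ‖A τ u‖) atTop (𝓝 0) →
        ∃ τ, Rect γ (A τ) r (u + k * v) := by
  obtain ⟨k1, k2, hk12, H⟩ := dirs γ hγ hinj u v hd hR
  refine ⟨k1, k2, hk12, fun k hk => ?_⟩
  obtain ⟨hk0, x, y, hx, hy, hT⟩ := H k hk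
  refine ⟨hk0, fun r hr A hA hAi hbot htop => ?_⟩
  set X := cx u v with hX
  set Y := cy u v with hY
  set l : ℂ →L[ℝ] ℝ := Y - k • X with hl
  have hlz : ∀ z, l z = Y z - k * X z := fun z => by simp [hl]
  have hlm : ∀ z, l z = 0 → X z = 0 → z = 0 := by
    intro z h1 h2
    rw [hlz, h2] at h1
    exact sep hd h2 (by linarith)
  have hkc : (k : ℂ) ≠ 0 := by exact_mod_cast hk0
  have hXe : X (u + k * v) = 1 := by
    have := cx_smul u v hd 1 k
    simpa using this
  have hYe : Y (u + k * v) = k := by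
    have := cy_smul u v hd 1 k
    simpa using this
  have hu0 : u ≠ 0 := by
    rintro rfl
    simp [dd] at hd
  have hv0 : v ≠ 0 := by
    rintro rfl
    simp [dd] at hd
  have he0 : u + k * v ≠ 0 := by
    intro h0
    rw [h0, map_zero] at hXe
    exact zero_ne_one hXe
  have hAne : ∀ τ z, z ≠ 0 → A τ z ≠ 0 := by
    intro τ z hz h0
    exact hz (hAi τ (by rw [h0, map_zero]))
  have hAr : ∀ τ (a : ℝ) z, A τ (a * z) = a * A τ z := by
    intro τ a z
    rw [← Complex.real_smul, map_smul, Complex.real_smul]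
  have hAe : ∀ τ, A τ (u + k * v) = A τ u + k * A τ v := by
    intro τ
    rw [map_add, hAr]
  let q : ℝ → ℂ := fun τ => A τ v / A τ (u + k * v)
  have hq : Continuous q := (hA v).div (hA _) (fun τ => hAne τ _ he0)
  have hqi : ∀ τ, (q τ).im ≠ 0 := by
    intro τ h0
    have h1 : q τ = ((q τ).re : ℂ) := Complex.ext (by simp) (by simpa using h0)
    have h2 : A τ v = q τ * A τ (u + k * v) := (div_mul_cancel₀ _ (hAne τ _ he0)).symm
    rw [h1, ← hAr] at h2
    have h3 := hAi τ h2
    have h4 : X v = (q τ).re * X (u + k * v) := by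
      conv_lhs => rw [h3]
      rw [← Complex.real_smul, map_smul, smul_eq_mul]
    have h5 : Y v = (q τ).re * Y (u + k * v) := by
      conv_lhs => rw [h3]
      rw [← Complex.real_smul, map_smul, smul_eq_mul]
    have h6 : X v = 0 := by simpa using cx_smul u v hd 0 1
    have h7 : Y v = 1 := by simpa using cy_smul u v hd 0 1
    rw [h6, hXe, mul_one] at h4
    rw [h7, hYe, ← h4, zero_mul] at h5
    exact one_ne_zero h5
  have hqtop : Tendsto q atTop (𝓝 0) := by
    have t1 : Tendsto (fun τ => A τ v / A τ u) atTop (𝓝 0) := by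
      rw [tendsto_zero_iff_norm_tendsto_zero]
      simpa only [norm_div] using htop
    have t2 : Tendsto (fun τ => (A τ v / A τ u) / (1 + k * (A τ v / A τ u))) atTop
        (𝓝 (0 / (1 + k * 0))) :=
      t1.div (tendsto_const_nhds.add (tendsto_const_nhds.mul t1)) (by simp)
    rw [zero_div] at t2
    refine t2.congr fun τ => ?_
    show _ = A τ v / A τ (u + k * v)
    have h1 := hAne τ u hu0
    have h2 := hAne τ _ he0
    rw [hAe] at h2 ⊢
    have h3 : 1 + k * (A τ v / A τ u) = (A τ u + k * A τ v) / A τ u := by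
      field_simp
    rw [h3, div_div_div_cancel_right₀ h1]
  have hqbot : Tendsto q atBot (𝓝 ((k⁻¹ : ℝ) : ℂ)) := by
    have t1 : Tendsto (fun τ => A τ u / A τ v) atBot (𝓝 0) := by
      rw [tendsto_zero_iff_norm_tendsto_zero]
      simpa only [norm_div] using hbot
    have t2 : Tendsto (fun τ => 1 / (A τ u / A τ v + k)) atBot (𝓝 (1 / (0 + (k : ℂ)))) :=
      tendsto_const_nhds.div (t1.add tendsto_const_nhds) (by simpa using hk0)
    have e : (1 / (0 + (k : ℂ))) = ((k⁻¹ : ℝ) : ℂ) := by
      rw [zero_add, one_div]; push_cast; rfl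
    rw [e] at t2
    refine t2.congr fun τ => ?_
    show _ = A τ v / A τ (u + k * v)
    have h1 := hAne τ v hv0
    have h2 := hAne τ _ he0
    rw [hAe] at h2 ⊢
    have h3 : A τ u / A τ v + k = (A τ u + k * A τ v) / A τ v := by
      field_simp
    rw [h3, one_div, inv_div]
  obtain ⟨x0, x1, x2, x3, τ, e1, e2, e3, e4⟩ := path_lemma γ hγ hinj X l hlm x y hx hy k r hr q hq
    hqi hqtop hqbot hT
  have hQ : ∀ z, A τ z = QQ X l (q τ) z * A τ (u + k * v) := by
    intro z
    have h1 : A τ z = X z * A τ u + Y z * A τ v := by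
      conv_lhs => rw [decomp hd z]
      rw [map_add, hAr, hAr]
    have h2 : q τ * A τ (u + k * v) = A τ v := div_mul_cancel₀ _ (hAne τ _ he0)
    unfold QQ
    rw [add_mul, mul_right_comm, h2, hlz, hAe, h1]
    push_cast
    ring
  set c := X (γ x1 - γ x0) with hc
  have hYw : Y (γ x1 - γ x0) = k * c := by
    rw [hlz] at e1
    linarith
  have hw : γ x1 - γ x0 = (c : ℂ) * (u + k * v) := by
    have := decomp hd (γ x1 - γ x0)
    rw [← hX, ← hY, ← hc, hYw] at this
    rw [this]
    push_cast
    ring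
  have hcc : (c : ℂ) ≠ 0 := by exact_mod_cast e2
  refine ⟨τ, rect_mk γ (A τ) r _ x0 x1 x2 x3 e3 c hw ?_ ?_⟩
  · apply hAne
    rw [hw]
    exact mul_ne_zero hcc he0
  · have h1 : (QQ X l (q τ) (γ x3 - γ x0) - r * I * c) *
        (QQ X l (q τ) (γ x3 - γ x0) + r * I * c) = 0 := by
      have : (QQ X l (q τ) (γ x3 - γ x0) - r * I * c) *
        (QQ X l (q τ) (γ x3 - γ x0) + r * I * c) =
          QQ X l (q τ) (γ x3 - γ x0) ^ 2 - r ^ 2 * c ^ 2 * (I * I) := by ring
      rw [this, I_mul_I, ← e4]
      push_cast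
      ring
    rw [hQ (γ x3 - γ x0), hw, hAr]
    rcases mul_eq_zero.1 h1 with h2 | h2
    · left
      rw [sub_eq_zero.1 h2]
      ring
    · right
      rw [eq_neg_of_add_eq_zero_left h2]
      ring

end Pool.Agent.N94.SJ
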